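import Mathlib

/-!
Level `k` quantum `SU(N)` invariants of graph manifolds, by the surgery formula in terms of the
Kac-Peterson modular `S` and `T` matrices. Throughout `r = k + N`.
-/

open Finset
open scoped Real

namespace Pool.Agent.Helper15.AllN

/-- The level `k` colours of `SU(N)`, where `r = k + N`: the shifted dominant weights `lambda + rho`
in orthogonal coordinates `0 = x 0 < x 1 < ... < x (N-1) < r`. -/
def colors (N r : ℕ) : Finset (Fin N → ℕ) :=
  (Fintype.piFinset fun _ : Fin N => Finset.range r).filter
    fun x => StrictMono x ∧ ∀ i : Fin N, (i : ℕ) = 0 → x i = 0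

/-- The invariant inner product of two weights given in orthogonal coordinates (which matter only
up to a common shift). -/
noncomputable def ip (N : ℕ) (x y : Fin N → ℕ) : ℝ :=
  (∑ i, (x i : ℝ) * y i) - (∑ i, (x i : ℝ)) * (∑ i, (y i : ℝ)) / N

/-- The Kac-Peterson `S` matrix of `SU(N)` at level `k = r - N`. -/
noncomputable def Smat (N r : ℕ) (x y : Fin N → ℕ) : ℂ :=
  Complex.I ^ (N * (N - 1) / 2) / (Real.sqrt (N * (r : ℝ) ^ (N - 1)) : ℂ) *
    ∑ w : Equiv.Perm (Fin N), ((Equiv.Perm.sign w : ℤ) : ℂ) *
      Complex.exp (-(2 * π * Complex.I / r) * (ip N (fun i => x (w i)) y : ℂ))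

/-- The Kac-Peterson `T` matrix (diagonal entries). -/
noncomputable def Tmat (N r : ℕ) (x : Fin N → ℕ) : ℂ :=
  Complex.exp (π * Complex.I / r * (ip N x x : ℂ) - 2 * π * Complex.I * ((N : ℂ) ^ 2 - 1) / 24)

/-- The vacuum colour: the shifted weight `rho`. -/
def vac (N : ℕ) : Fin N → ℕ := fun i => i

/-- The central charge of `SU(N)` at level `k`. -/
noncomputable def centralCharge (N k : ℕ) : ℝ := k * ((N : ℝ) ^ 2 - 1) / (k + N)

/-- A plumbing graph: vertices with a genus and an Euler number, and edges with a sign
(`true` is `+`, `false` is `-`). It presents the graph manifold which is the boundary of the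
plumbing of disc bundles over closed oriented surfaces. -/
structure PlumbingGraph where
  V : ℕ
  genus : Fin V → ℕ
  euler : Fin V → ℤ
  edges : List (Fin V × Fin V × Bool)

/-- The valency of a vertex. -/
def PlumbingGraph.deg (G : PlumbingGraph) (v : Fin G.V) : ℕ :=
  (G.edges.map fun e => (if e.1 = v then 1 else 0) + (if e.2.1 = v then 1 else 0)).sum

/-- The level `k` quantum `SU(N)` invariant of the graph manifold of `G`, for a 2-framing
determined by `G` (Turaev's book, X.9: the invariant of a graph manifold in terms of modular data).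
The circle bundle over a surface of genus `g` with `n` boundary circles contributes
`∑_x S_{0x}^{2-2g-n} x ⊗ ... ⊗ x`, the Euler number contributes powers of `T`, and an edge glues by
`S`, composed with charge conjugation if its sign is `-`. -/
noncomputable def Z (N k : ℕ) (G : PlumbingGraph) : ℂ :=
  ∑ x ∈ Fintype.piFinset (fun _ : Fin G.V => colors N (k + N)),
    (∏ v, Smat N (k + N) (vac N) (x v) ^ (2 - 2 * (G.genus v : ℤ) - (G.deg v : ℤ)) *
        Tmat N (k + N) (x v) ^ G.euler v) *
      (G.edges.map fun e => if e.2.2 then Smat N (k + N) (x e.1) (x e.2.1)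
        else (starRingEnd ℂ) (Smat N (k + N) (x e.1) (x e.2.1))).prod

/-- Two vertices of genus one and Euler number zero, joined by two edges of opposite signs. -/
def twoTori : PlumbingGraph where
  V := 2
  genus := fun _ => 1
  euler := fun _ => 0
  edges := [(0, 1, true), (0, 1, false)]

end Pool.Agent.Helper15.AllN
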