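import Mathlib
import Pool.Agent.Helper15.Det
import Pool.Agent.Helper15.AllN.Defs

open Finset
open scoped Real

namespace Pool.Agent.Helper15.AllN

/-- the root of unity `exp(-2πi/r)` -/
noncomputable def om (r : ℕ) : ℂ := Complex.exp (-(2 * π * Complex.I / r))

/-- the complex number `det (om^(x_i y_j))` -/
noncomputable def D (N r : ℕ) (x y : Fin N → ℕ) : ℂ :=
  Matrix.det (Matrix.of fun i j : Fin N => om r ^ (x i * y j))

theorem om_pow (r n : ℕ) : om r ^ n = Complex.exp (-(2 * π * Complex.I / r) * n) := by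
  rw [om, ← Complex.exp_nat_mul]
  congr 1
  ring

theorem norm_om_pow (r n : ℕ) : ‖om r ^ n‖ = 1 := by
  rw [om_pow]
  have : (-(2 * π * Complex.I / r) * n : ℂ) = ((-(2 * π / r) * n : ℝ) : ℂ) * Complex.I := by
    push_cast; ring
  rw [this, Complex.norm_exp_ofReal_mul_I]

theorem om_pow_self {r : ℕ} (hr : 0 < r) : om r ^ r = 1 := by
  rw [om_pow]
  have : (-(2 * π * Complex.I / r) * r : ℂ) = -(2 * π * Complex.I) := by
    have : (r : ℂ) ≠ 0 := by exact_mod_cast hr.ne'
    field_simp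
  rw [this, Complex.exp_neg, Complex.exp_two_pi_mul_I, inv_one]

/-- distance of two powers of the root of unity -/
theorem norm_om_sub {r a b : ℕ} (hab : a ≤ b) (hb : b - a ≤ r) (hr : 0 < r) :
    ‖om r ^ b - om r ^ a‖ = 2 * Real.sin (π * ((b : ℝ) - a) / r) := by
  have h1 : om r ^ b - om r ^ a = om r ^ a * (om r ^ (b - a) - 1) := by
    rw [mul_sub, ← pow_add, mul_one, Nat.add_sub_cancel' hab]
  rw [h1, norm_mul, norm_om_pow, one_mul, om_pow]
  have h2 : (-(2 * π * Complex.I / r) * ((b - a : ℕ) : ℂ)) =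
      (((-(2 * (π * ((b : ℝ) - a) / r)) : ℝ)) : ℂ) * Complex.I := by
    push_cast [Nat.cast_sub hab]
    ring
  rw [h2]
  set t : ℝ := π * ((b : ℝ) - a) / r with ht
  have ht0 : 0 ≤ Real.sin t := by
    apply Real.sin_nonneg_of_nonneg_of_le_pi
    · rw [ht]
      have : (0 : ℝ) ≤ (b : ℝ) - a := by
        have : (a : ℝ) ≤ b := by exact_mod_cast hab
        linarith
      positivity
    · rw [ht, div_le_iff₀ (by exact_mod_cast hr)]
      have : (b : ℝ) - a ≤ r := by
        have := hb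
        have h3 : ((b - a : ℕ) : ℝ) ≤ r := by exact_mod_cast this
        rwa [Nat.cast_sub hab] at h3
      exact mul_le_mul_of_nonneg_left this Real.pi_pos.le
  have h3 : ‖Complex.exp (((-(2 * t) : ℝ) : ℂ) * Complex.I) - 1‖ ^ 2 = (2 * Real.sin t) ^ 2 := by
    rw [← Complex.normSq_eq_norm_sq, Complex.normSq_apply]
    simp only [Complex.sub_re, Complex.sub_im, Complex.one_re, Complex.one_im,
      Complex.exp_ofReal_mul_I_re, Complex.exp_ofReal_mul_I_im, Real.cos_neg, Real.sin_neg,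
      Real.cos_two_mul, Real.sin_two_mul]
    have := Real.sin_sq_add_cos_sq t
    nlinarith [this]
  have h4 : 0 ≤ 2 * Real.sin t := by linarith
  exact (sq_eq_sq₀ (norm_nonneg _) h4).1 h3

/-- real part of a small power -/
theorem re_om_pow {r E : ℕ} (hr : 0 < r) (hE : 6 * E ≤ r) : 1 / 2 ≤ (om r ^ E).re := by
  rw [om_pow]
  have h2 : (-(2 * π * Complex.I / r) * (E : ℂ)) =
      (((-(2 * π * E / r) : ℝ)) : ℂ) * Complex.I := by
    push_cast
    ring
  rw [h2, Complex.exp_ofReal_mul_I_re, Real.cos_neg, ← Real.cos_pi_div_three]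
  apply Real.cos_le_cos_of_nonneg_of_le_pi
  · positivity
  · linarith [Real.pi_pos]
  · have hr' : (0 : ℝ) < r := by exact_mod_cast hr
    rw [div_le_iff₀ hr']
    have : (6 : ℝ) * E ≤ r := by exact_mod_cast hE
    nlinarith [Real.pi_pos]

theorem norm_D_vac (N r : ℕ) (y : Fin N → ℕ) :
    ‖D N r (vac N) y‖ = ∏ i, ∏ j ∈ Ioi i, ‖om r ^ y j - om r ^ y i‖ := by
  have : D N r (vac N) y = Matrix.det (Matrix.vandermonde fun j : Fin N => om r ^ y j) := by
    rw [D, ← Matrix.det_transpose]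
    congr 1
    ext i j
    simp only [Matrix.transpose_apply, Matrix.of_apply, Matrix.vandermonde_apply, vac]
    rw [← pow_mul, mul_comm]
  rw [this, Matrix.det_vandermonde, norm_prod]
  exact Finset.prod_congr rfl fun i _ => norm_prod _ _

theorem D_symm (N r : ℕ) (x y : Fin N → ℕ) : D N r x y = D N r y x := by
  rw [D, D, ← Matrix.det_transpose]
  congr 1
  ext i j
  simp [mul_comm]

/-- trivial bound -/
theorem norm_D_le (N r : ℕ) (x y : Fin N → ℕ) : ‖D N r x y‖ ≤ (N.factorial : ℝ) := by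
  rw [D, Matrix.det_apply]
  refine (norm_sum_le _ _).trans ?_
  have : ∀ σ ∈ (univ : Finset (Equiv.Perm (Fin N))), ‖Equiv.Perm.sign σ •
      ∏ i, (Matrix.of fun i j : Fin N => om r ^ (x i * y j)) (σ i) i‖ ≤ 1 := by
    intro σ _
    rw [Units.smul_def, zsmul_eq_mul, norm_mul, norm_prod]
    have h1 : ‖(((Equiv.Perm.sign σ : ℤˣ) : ℤ) : ℂ)‖ = 1 := by
      rcases Int.units_eq_one_or (Equiv.Perm.sign σ) with h | h <;> simp [h]
    rw [h1, one_mul]
    refine (Finset.prod_le_one (fun _ _ => norm_nonneg _) fun i _ => ?_)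
    rw [Matrix.of_apply, norm_om_pow]
  refine (Finset.sum_le_sum this).trans ?_
  simp [Finset.card_univ, Fintype.card_perm]

/-- upper bound for the determinant by the product of the two Vandermonde-like products -/
theorem norm_D_le_prod (N r : ℕ) (x y : Fin N → ℕ) (hx : StrictMono x) :
    ‖D N r x y‖ ≤ ((∏ i, ∏ j ∈ Ioi i, (x j - x i) : ℕ) : ℝ) * ‖D N r (vac N) y‖ := by
  obtain ⟨ι, hι, e, h1, _, h3⟩ := det_expansion N x hx
  have h4 := h1 (fun j => om r ^ y j)
  have h5 : D N r x y = Matrix.det (Matrix.of fun i j : Fin N => (om r ^ y j) ^ x i) := by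
    rw [D]
    congr 1
    ext i j
    simp only [Matrix.of_apply]
    rw [← pow_mul, mul_comm]
  rw [h5, h4, norm_mul, norm_D_vac, norm_prod, mul_comm]
  have h6 : ∏ i, ‖∏ j ∈ Ioi i, (om r ^ y j - om r ^ y i)‖ =
      ∏ i, ∏ j ∈ Ioi i, ‖om r ^ y j - om r ^ y i‖ :=
    Finset.prod_congr rfl fun i _ => norm_prod _ _
  rw [h6]
  refine mul_le_mul_of_nonneg_right ?_
    (Finset.prod_nonneg fun i _ => Finset.prod_nonneg fun j _ => norm_nonneg _)
  refine (norm_sum_le _ _).trans ?_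
  have h7 : ∀ a ∈ (univ : Finset ι), ‖∏ i, (om r ^ y i) ^ e a i‖ ≤ 1 := by
    intro a _
    rw [norm_prod]
    refine (Finset.prod_le_one (fun _ _ => norm_nonneg _) fun i _ => ?_)
    rw [← pow_mul, norm_om_pow]
  refine (Finset.sum_le_sum h7).trans ?_
  rw [Finset.sum_const, nsmul_eq_mul, mul_one, Finset.card_univ]
  exact_mod_cast h3

/-- lower bound near the corner -/
theorem norm_D_ge (N r : ℕ) (x y : Fin N → ℕ) (hx : StrictMono x) (hr : 0 < r) (B : ℕ)
    (hy : ∀ i, y i ≤ B) (hB : 6 * (B * ∑ i, x i) ≤ r) :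
    ‖D N r (vac N) x‖ * ‖D N r (vac N) y‖ ≤ 2 * ‖D N r x y‖ * ‖D N r (vac N) (vac N)‖ := by
  obtain ⟨ι, hι, e, h1, h2, h3⟩ := det_expansion N x hx
  have key : ∀ y' : Fin N → ℕ, ‖D N r x y'‖ =
      ‖∑ a, ∏ i, (om r ^ y' i) ^ e a i‖ * ‖D N r (vac N) y'‖ := by
    intro y'
    have h4 := h1 (fun j => om r ^ y' j)
    have h5 : D N r x y' = Matrix.det (Matrix.of fun i j : Fin N => (om r ^ y' j) ^ x i) := by
      rw [D]
      congr 1
      ext i j
      simp only [Matrix.of_apply]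
      rw [← pow_mul, mul_comm]
    rw [h5, h4, norm_mul, norm_D_vac, norm_prod, mul_comm]
    congr 1
    exact Finset.prod_congr rfl fun i _ => norm_prod _ _
  have up : ∀ y' : Fin N → ℕ, ‖∑ a, ∏ i, (om r ^ y' i) ^ e a i‖ ≤ (Fintype.card ι : ℝ) := by
    intro y'
    refine (norm_sum_le _ _).trans ?_
    have h7 : ∀ a ∈ (univ : Finset ι), ‖∏ i, (om r ^ y' i) ^ e a i‖ ≤ 1 := by
      intro a _
      rw [norm_prod]
      refine (Finset.prod_le_one (fun _ _ => norm_nonneg _) fun i _ => ?_)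
      rw [← pow_mul, norm_om_pow]
    refine (Finset.sum_le_sum h7).trans ?_
    rw [Finset.sum_const, nsmul_eq_mul, mul_one, Finset.card_univ]
  have low : (Fintype.card ι : ℝ) / 2 ≤ ‖∑ a, ∏ i, (om r ^ y i) ^ e a i‖ := by
    refine le_trans ?_ (Complex.re_le_norm _)
    rw [Complex.re_sum]
    have h8 : ∀ a ∈ (univ : Finset ι), (1 / 2 : ℝ) ≤ (∏ i, (om r ^ y i) ^ e a i).re := by
      intro a _
      have h9 : ∏ i, (om r ^ y i) ^ e a i = om r ^ (∑ i, y i * e a i) := by
        rw [← Finset.prod_pow_eq_pow_sum]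
        exact Finset.prod_congr rfl fun i _ => (pow_mul _ _ _).symm
      rw [h9]
      apply re_om_pow hr
      refine le_trans (Nat.mul_le_mul_left 6 ?_) hB
      calc ∑ i, y i * e a i ≤ ∑ i, B * e a i :=
            Finset.sum_le_sum fun i _ => Nat.mul_le_mul_right _ (hy i)
        _ = B * ∑ i, e a i := (Finset.mul_sum _ _ _).symm
        _ ≤ B * ∑ i, x i := Nat.mul_le_mul_left _ (h2 a)
    refine le_trans ?_ (Finset.sum_le_sum h8)
    rw [Finset.sum_const, nsmul_eq_mul, Finset.card_univ]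
    linarith
  have hvx : ‖D N r (vac N) x‖ = ‖D N r x (vac N)‖ := by rw [D_symm]
  rw [hvx, key (vac N), key y]
  have n1 := norm_nonneg (D N r (vac N) (vac N))
  have n2 := norm_nonneg (D N r (vac N) y)
  have u1 := up (vac N)
  calc ‖∑ a, ∏ i, (om r ^ vac N i) ^ e a i‖ * ‖D N r (vac N) (vac N)‖ * ‖D N r (vac N) y‖
      ≤ (Fintype.card ι : ℝ) * ‖D N r (vac N) (vac N)‖ * ‖D N r (vac N) y‖ := by gcongr
    _ = 2 * ((Fintype.card ι : ℝ) / 2 * ‖D N r (vac N) y‖) * ‖D N r (vac N) (vac N)‖ := by ring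
    _ ≤ 2 * (‖∑ a, ∏ i, (om r ^ y i) ^ e a i‖ * ‖D N r (vac N) y‖) *
          ‖D N r (vac N) (vac N)‖ := by gcongr

end Pool.Agent.Helper15.AllN
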