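import Mathlib
import Pool.Agent.Helper15.AllN.Basic

open Finset
open scoped Real

namespace Pool.Agent.Helper15.AllN

theorem mem_colors {n r : ℕ} {x : Fin (n + 1) → ℕ} :
    x ∈ colors (n + 1) r ↔ (∀ i, x i < r) ∧ StrictMono x ∧ x 0 = 0 := by
  rw [colors, Finset.mem_filter, Fintype.mem_piFinset]
  simp only [Finset.mem_range]
  constructor
  · rintro ⟨h1, h2, h3⟩
    exact ⟨h1, h2, h3 0 rfl⟩
  · rintro ⟨h1, h2, h3⟩
    refine ⟨h1, h2, fun i hi => ?_⟩
    have : i = 0 := Fin.ext hi
    rw [this, h3]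

/-- the periodic continuation of a colour -/
def ext (n r : ℕ) (x : Fin (n + 1) → ℕ) (i : ℕ) : ℕ :=
  x ⟨i % (n + 1), Nat.mod_lt _ (Nat.succ_pos n)⟩ + r * (i / (n + 1))

theorem ext_fin (n r : ℕ) (x : Fin (n + 1) → ℕ) (i : Fin (n + 1)) : ext n r x i = x i := by
  rw [ext, Nat.div_eq_of_lt i.2, mul_zero, add_zero]
  congr 1
  exact Fin.ext (Nat.mod_eq_of_lt i.2)

theorem ext_add (n r : ℕ) (x : Fin (n + 1) → ℕ) (i : ℕ) :
    ext n r x (i + (n + 1)) = ext n r x i + r := by
  simp only [ext, Nat.add_mod_right, Nat.add_div_right _ (Nat.succ_pos n)]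
  ring

theorem ext_add_mul (n r : ℕ) (x : Fin (n + 1) → ℕ) (i q : ℕ) :
    ext n r x (i + (n + 1) * q) = ext n r x i + r * q := by
  induction q with
  | zero => simp
  | succ q ih =>
    rw [Nat.mul_succ, ← add_assoc, ext_add, ih]
    ring

theorem ext_strictMono {n r : ℕ} {x : Fin (n + 1) → ℕ} (hx : x ∈ colors (n + 1) r) :
    StrictMono (ext n r x) := by
  rw [mem_colors] at hx
  obtain ⟨h1, h2, h3⟩ := hx
  refine strictMono_nat_of_lt_succ fun i => ?_
  set q := i / (n + 1) with hq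
  set t := i % (n + 1) with ht
  have hi : i = t + (n + 1) * q := (Nat.mod_add_div i (n + 1)).symm
  have htlt : t < n + 1 := Nat.mod_lt _ (Nat.succ_pos n)
  rw [hi, show t + (n + 1) * q + 1 = (t + 1) + (n + 1) * q by ring, ext_add_mul, ext_add_mul]
  apply Nat.add_lt_add_right
  have e1 : ext n r x t = x ⟨t, htlt⟩ := ext_fin n r x ⟨t, htlt⟩
  rw [e1]
  by_cases h : t + 1 < n + 1
  · have e2 : ext n r x (t + 1) = x ⟨t + 1, h⟩ := ext_fin n r x ⟨t + 1, h⟩
    rw [e2]
    exact h2 (by simp)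
  · have e3 : t + 1 = 0 + (n + 1) := by omega
    rw [e3, ext_add]
    have e4 : ext n r x 0 = x 0 := ext_fin n r x 0
    rw [e4, h3]
    have := h1 ⟨t, htlt⟩
    omega

/-- rotation of a colour (action of the centre) -/
def rotm (n r m : ℕ) (x : Fin (n + 1) → ℕ) : Fin (n + 1) → ℕ :=
  fun i => ext n r x (m + i) - ext n r x m

theorem rotm_mem {n r m : ℕ} {x : Fin (n + 1) → ℕ} (hx : x ∈ colors (n + 1) r) :
    rotm n r m x ∈ colors (n + 1) r := by
  have hs := ext_strictMono hx
  rw [mem_colors]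
  refine ⟨fun i => ?_, fun i j hij => ?_, ?_⟩
  · have h1 : ext n r x (m + i) < ext n r x (m + (n + 1)) := hs (by omega)
    have h2 : ext n r x m ≤ ext n r x (m + i) := hs.monotone (by omega)
    rw [ext_add] at h1
    simp only [rotm]
    omega
  · have h1 : ext n r x (m + i) < ext n r x (m + j) := hs (by
      have : (i : ℕ) < j := hij
      omega)
    have h2 : ext n r x m ≤ ext n r x (m + i) := hs.monotone (by omega)
    simp only [rotm]
    omega
  · simp [rotm]

theorem ext_rotm {n r m : ℕ} {x : Fin (n + 1) → ℕ} (hx : x ∈ colors (n + 1) r) (i : ℕ) :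
    ext n r (rotm n r m x) i = ext n r x (m + i) - ext n r x m := by
  have hs := ext_strictMono hx
  have hi : i = i % (n + 1) + (n + 1) * (i / (n + 1)) := (Nat.mod_add_div i (n + 1)).symm
  have h1 : ext n r x (m + i) = ext n r x (m + i % (n + 1)) + r * (i / (n + 1)) := by
    conv_lhs => rw [hi, ← add_assoc, ext_add_mul]
  have h2 : ext n r x m ≤ ext n r x (m + i % (n + 1)) := hs.monotone (by omega)
  rw [h1]
  simp only [ext, rotm]
  simp only [ext] at h2
  omega

theorem rotm_injOn (n r m : ℕ) (hm : m ≤ n + 1) :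
    Set.InjOn (rotm n r m) (colors (n + 1) r : Set (Fin (n + 1) → ℕ)) := by
  intro x hx y hy hxy
  have key : ∀ z ∈ colors (n + 1) r, ∀ i : Fin (n + 1),
      z i = ext n r (rotm n r m z) (n + 1 - m + i) - ext n r (rotm n r m z) (n + 1 - m) := by
    intro z hz i
    have hs := ext_strictMono hz
    rw [ext_rotm hz, ext_rotm hz]
    have e1 : m + (n + 1 - m + i) = i + (n + 1) := by omega
    have e2 : m + (n + 1 - m) = 0 + (n + 1) := by omega
    have e3 : ext n r z 0 = z 0 := ext_fin n r z 0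
    rw [e1, e2, ext_add, ext_add, ext_fin, e3]
    have h0 : z 0 = 0 := (mem_colors.1 hz).2.2
    have h4 : ext n r z m ≤ ext n r z (0 + (n + 1)) := hs.monotone (by omega)
    rw [ext_add, e3, h0] at h4
    rw [h0]
    omega
  ext i
  rw [key x hx i, key y hy i, hxy]

theorem norm_D_rotm {n r m : ℕ} {x : Fin (n + 1) → ℕ} (hx : x ∈ colors (n + 1) r) (hr : 0 < r)
    (y : Fin (n + 1) → ℕ) : ‖D (n + 1) r (rotm n r m x) y‖ = ‖D (n + 1) r x y‖ := by
  have hs := ext_strictMono hx
  set a : Fin (n + 1) := ⟨m % (n + 1), Nat.mod_lt _ (Nat.succ_pos n)⟩ with ha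
  have h1 : D (n + 1) r (rotm n r m x) y * ∏ j, om r ^ (ext n r x m * y j) =
      ((Equiv.Perm.sign (Equiv.addLeft a) : ℤ) : ℂ) * D (n + 1) r x y := by
    rw [D, D, ← Matrix.det_permute, mul_comm, ← Matrix.det_mul_row]
    congr 1
    ext i j
    simp only [Matrix.of_apply, Matrix.submatrix_apply, id, Equiv.coe_addLeft]
    have h2 : ext n r x m ≤ ext n r x (m + i) := hs.monotone (by omega)
    rw [← pow_add, ← add_mul]
    have h3 : ext n r x m + rotm n r m x i = ext n r x (m + i) := by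
      simp only [rotm]; omega
    rw [h3]
    have h4 : a + i = ⟨(m + i) % (n + 1), Nat.mod_lt _ (Nat.succ_pos n)⟩ := by
      apply Fin.ext
      simp [ha, Fin.val_add]
    rw [h4]
    simp only [ext]
    rw [add_mul, pow_add, show r * ((m + (i : ℕ)) / (n + 1)) * y j =
      r * (((m + (i : ℕ)) / (n + 1)) * y j) by ring, pow_mul (om r) r, om_pow_self hr, one_pow,
      mul_one]
  have h5 := congrArg norm h1
  rw [norm_mul, norm_mul, norm_prod] at h5
  have h6 : ‖(((Equiv.Perm.sign (Equiv.addLeft a) : ℤˣ) : ℤ) : ℂ)‖ = 1 := by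
    rcases Int.units_eq_one_or (Equiv.Perm.sign (Equiv.addLeft a)) with h | h <;> simp [h]
  rw [h6, one_mul] at h5
  have h7 : ∏ j, ‖om r ^ (ext n r x m * y j)‖ = 1 :=
    Finset.prod_eq_one fun j _ => norm_om_pow _ _
  rw [h7, mul_one] at h5
  exact h5

/-- every colour can be rotated so that the last cyclic gap is at least the average -/
theorem exists_good {n r : ℕ} {x : Fin (n + 1) → ℕ} (hx : x ∈ colors (n + 1) r) :
    ∃ m ∈ range (n + 2), ∀ i, (n + 1) * rotm n r m x i + r ≤ (n + 1) * r := by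
  have hs := ext_strictMono hx
  have h0 : x 0 = 0 := (mem_colors.1 hx).2.2
  have hsum : ∑ m ∈ range (n + 1), (ext n r x (m + 1) - ext n r x m) = r := by
    rw [Finset.sum_range_tsub hs.monotone]
    have e1 : ext n r x (n + 1) = ext n r x 0 + r := by
      have := ext_add n r x 0
      rwa [zero_add] at this
    have e2 : ext n r x 0 = x 0 := ext_fin n r x 0
    rw [e1]
    omega
  obtain ⟨m, hm, hge⟩ : ∃ m ∈ range (n + 1), r ≤ (n + 1) * (ext n r x (m + 1) - ext n r x m) := by
    by_contra hcon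
    push Not at hcon
    have h1 : ∑ m ∈ range (n + 1), (n + 1) * (ext n r x (m + 1) - ext n r x m) <
        ∑ m ∈ range (n + 1), r :=
      Finset.sum_lt_sum_of_nonempty ⟨0, by simp⟩ hcon
    rw [← Finset.mul_sum, hsum, Finset.sum_const, Finset.card_range, smul_eq_mul] at h1
    exact lt_irrefl _ h1
  refine ⟨m + 1, by simp only [Finset.mem_range] at hm ⊢; omega, fun i => ?_⟩
  have h1 : ext n r x (m + 1 + i) ≤ ext n r x (m + (n + 1)) := hs.monotone (by omega)
  have h2 : ext n r x (m + 1) ≤ ext n r x (m + 1 + i) := hs.monotone (by omega)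
  have h3 : ext n r x m ≤ ext n r x (m + 1) := hs.monotone (by omega)
  rw [ext_add] at h1
  have h4 : rotm n r (m + 1) x i + (ext n r x (m + 1) - ext n r x m) ≤ r := by
    simp only [rotm]
    omega
  calc (n + 1) * rotm n r (m + 1) x i + r
      ≤ (n + 1) * rotm n r (m + 1) x i + (n + 1) * (ext n r x (m + 1) - ext n r x m) := by
        omega
    _ = (n + 1) * (rotm n r (m + 1) x i + (ext n r x (m + 1) - ext n r x m)) := by ring
    _ ≤ (n + 1) * r := Nat.mul_le_mul_left _ h4

end Pool.Agent.Helper15.AllN
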