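import Mathlib
import Pool.Agent.Helper15.AllN.Rot

open Finset
open scoped Real

namespace Pool.Agent.Helper15.AllN

/-- product of neighbouring gaps -/
def G (n : ℕ) (w : Fin (n + 1) → ℕ) : ℕ := ∏ l : Fin n, (w l.succ - w l.castSucc)

/-- product of all differences -/
def PI (N : ℕ) (w : Fin N → ℕ) : ℕ := ∏ i, ∏ j ∈ Ioi i, (w j - w i)

theorem prod_pairs_mul (n : ℕ) : ∀ g : Fin n → ℕ,
    (∏ i, ∏ j ∈ Ioi i, (g i * g j)) * ∏ i, g i = (∏ i, g i) ^ n := by
  induction n with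
  | zero => intro g; simp
  | succ n ih =>
    intro g
    rw [prod_pairs_succ, Fin.prod_univ_succ (f := g)]
    have h1 : ∏ j : Fin n, (g 0 * g j.succ) = g 0 ^ n * ∏ j : Fin n, g j.succ := by
      rw [Finset.prod_mul_distrib, Finset.prod_const, Finset.card_univ, Fintype.card_fin]
    rw [h1]
    have h2 := ih (fun j => g j.succ)
    calc g 0 ^ n * (∏ j : Fin n, g j.succ) * (∏ i : Fin n, ∏ j ∈ Ioi i, g i.succ * g j.succ) *
          (g 0 * ∏ i : Fin n, g i.succ)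
        = g 0 ^ (n + 1) * (∏ j : Fin n, g j.succ) *
          ((∏ i : Fin n, ∏ j ∈ Ioi i, g i.succ * g j.succ) * ∏ i : Fin n, g i.succ) := by ring
      _ = g 0 ^ (n + 1) * (∏ j : Fin n, g j.succ) * (∏ i : Fin n, g i.succ) ^ n := by rw [h2]
      _ = (g 0 * ∏ i : Fin n, g i.succ) ^ (n + 1) := by ring

theorem G_pow_le (n : ℕ) (w : Fin (n + 1) → ℕ) (hw : StrictMono w) :
    G n w ^ (n + 1) ≤ PI (n + 1) w ^ 2 := by
  have h1 : PI (n + 1) w = G n w * ∏ i : Fin n, ∏ j ∈ Ioi i, (w j.succ - w i.castSucc) := by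
    rw [PI, G, prod_pairs_neighbour]
  have h2 := prod_pairs_mul n (fun l : Fin n => w l.succ - w l.castSucc)
  have h3 : ∏ i : Fin n, ∏ j ∈ Ioi i, ((w i.succ - w i.castSucc) * (w j.succ - w j.castSucc)) ≤
      (∏ i : Fin n, ∏ j ∈ Ioi i, (w j.succ - w i.castSucc)) ^ 2 := by
    rw [← Finset.prod_pow]
    refine Finset.prod_le_prod' fun i _ => ?_
    rw [← Finset.prod_pow]
    refine Finset.prod_le_prod' fun j hj => ?_
    have hij : i < j := by simpa using hj
    have e1 : w i.castSucc ≤ w i.succ := (hw (Fin.castSucc_lt_succ)).le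
    have e2 : w i.succ ≤ w j.castSucc := hw.monotone (Fin.succ_le_castSucc_iff.2 hij)
    have e3 : w j.castSucc ≤ w j.succ := (hw (Fin.castSucc_lt_succ)).le
    rw [sq]
    exact Nat.mul_le_mul (by omega) (by omega)
  rw [h1, mul_pow]
  calc G n w ^ (n + 1) = G n w * G n w ^ n := by ring
    _ = G n w * ((∏ i : Fin n, ∏ j ∈ Ioi i,
          ((w i.succ - w i.castSucc) * (w j.succ - w j.castSucc))) * G n w) := by
        rw [G, h2]
    _ = G n w ^ 2 * (∏ i : Fin n, ∏ j ∈ Ioi i,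
          ((w i.succ - w i.castSucc) * (w j.succ - w j.castSucc))) := by ring
    _ ≤ G n w ^ 2 * (∏ i : Fin n, ∏ j ∈ Ioi i, (w j.succ - w i.castSucc)) ^ 2 :=
        Nat.mul_le_mul_left _ h3

theorem card_pairs (N : ℕ) : 2 * ∑ i : Fin N, #(Ioi i) = N * (N - 1) := by
  simp only [Fin.card_Ioi]
  have h1 : ∑ i : Fin N, (N - 1 - (i : ℕ)) = ∑ i ∈ range N, i := by
    rw [← Fin.sum_univ_eq_sum_range (fun i => i) N]
    rw [← Equiv.sum_comp Fin.revPerm]
    refine Finset.sum_congr rfl fun i _ => ?_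
    simp only [Fin.revPerm_apply, Fin.val_rev]
    omega
  rw [h1, mul_comm, Finset.sum_range_id_mul_two]

theorem prod_pairs_const {N : ℕ} (c : ℝ) :
    ∏ i : Fin N, ∏ _j ∈ Ioi i, c = c ^ (∑ i : Fin N, #(Ioi i)) := by
  simp only [Finset.prod_const]
  rw [Finset.prod_pow_eq_pow_sum]

theorem sin_lower {N : ℕ} (hN : 0 < N) {d r : ℝ} (hr : 0 < r) (hd : 0 ≤ d)
    (hdr : N * d + r ≤ N * r) : 2 * d / (N * r) ≤ Real.sin (π * d / r) := by
  have hN' : (1 : ℝ) ≤ N := by exact_mod_cast hN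
  have hN0 : (0 : ℝ) < N := by linarith
  have hdr' : d ≤ r := by nlinarith
  by_cases h : d ≤ r / 2
  · have h1 : 2 / π * (π * d / r) ≤ Real.sin (π * d / r) := by
      apply Real.mul_le_sin
      · positivity
      · rw [div_le_iff₀ hr]
        nlinarith [Real.pi_pos]
    refine le_trans ?_ h1
    have h2 : 2 / π * (π * d / r) = 2 * d / r := by
      field_simp
    rw [h2]
    apply div_le_div_of_nonneg_left (by positivity) hr
    nlinarith
  · push Not at h
    have h1 : 2 / π * (π * (r - d) / r) ≤ Real.sin (π * (r - d) / r) := by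
      apply Real.mul_le_sin
      · have : 0 ≤ r - d := by linarith
        positivity
      · rw [div_le_iff₀ hr]
        nlinarith [Real.pi_pos]
    have h3 : Real.sin (π * (r - d) / r) = Real.sin (π * d / r) := by
      rw [← Real.sin_pi_sub]
      congr 1
      field_simp
      ring
    rw [h3] at h1
    refine le_trans ?_ h1
    have h2 : 2 / π * (π * (r - d) / r) = 2 * (r - d) / r := by
      field_simp
    rw [h2, div_le_div_iff₀ (by positivity) hr]
    have h4 : r ≤ N * (r - d) := by linarith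
    have h5 : d * r ≤ (N * (r - d)) * r := by
      apply mul_le_mul_of_nonneg_right _ hr.le
      linarith
    nlinarith

/-- lower bound for `S_{0w}` for a well rotated colour -/
theorem norm_D_vac_ge {N r : ℕ} (hN : 0 < N) (hr : 0 < r) {w : Fin N → ℕ} (hw : StrictMono w)
    (hg : ∀ i, N * w i + r ≤ N * r) :
    (4 / ((N : ℝ) * r)) ^ (∑ i : Fin N, #(Ioi i)) * (PI N w : ℝ) ≤ ‖D N r (vac N) w‖ := by
  rw [norm_D_vac, ← prod_pairs_const, PI]
  push_cast
  rw [← Finset.prod_mul_distrib]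
  have hr' : (0 : ℝ) < r := by exact_mod_cast hr
  have hN' : (0 : ℝ) < N := by exact_mod_cast hN
  refine Finset.prod_le_prod (fun i _ => ?_) fun i _ => ?_
  · refine mul_nonneg (Finset.prod_nonneg fun _ _ => by positivity)
      (Finset.prod_nonneg fun _ _ => by positivity)
  · rw [← Finset.prod_mul_distrib]
    refine Finset.prod_le_prod (fun j _ => by positivity) fun j hj => ?_
    have hij : i < j := by simpa using hj
    have hle : w i ≤ w j := (hw hij).le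
    have hjr : w j ≤ r := by
      have := hg j
      by_contra hcon
      push Not at hcon
      have : N * r < N * w j := Nat.mul_lt_mul_of_pos_left hcon hN
      omega
    rw [norm_om_sub hle (by omega) hr]
    have h1 : ((N : ℝ)) * ((w j : ℝ) - w i) + r ≤ N * r := by
      have h2 : ((N * w j + r : ℕ) : ℝ) ≤ ((N * r : ℕ) : ℝ) := by exact_mod_cast hg j
      push_cast at h2
      have h3 : (0 : ℝ) ≤ N * w i := by positivity
      nlinarith
    have h4 : (0 : ℝ) ≤ (w j : ℝ) - w i := by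
      have : (w i : ℝ) ≤ w j := by exact_mod_cast hle
      linarith
    have h5 := sin_lower hN hr' h4 h1
    have h6 : (((w j - w i : ℕ) : ℝ)) = (w j : ℝ) - w i := by
      rw [Nat.cast_sub hle]
    rw [h6]
    calc 4 / ((N : ℝ) * r) * ((w j : ℝ) - w i) = 2 * (2 * ((w j : ℝ) - w i) / (N * r)) := by ring
      _ ≤ 2 * Real.sin (π * ((w j : ℝ) - w i) / r) := by linarith

theorem PI_pos {N : ℕ} {w : Fin N → ℕ} (hw : StrictMono w) : 0 < PI N w := by
  rw [PI]
  refine Finset.prod_pos fun i _ => Finset.prod_pos fun j hj => ?_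
  have hij : i < j := by simpa using hj
  have := hw hij
  omega

theorem G_pos {n : ℕ} {w : Fin (n + 1) → ℕ} (hw : StrictMono w) : 0 < G n w := by
  rw [G]
  refine Finset.prod_pos fun i _ => ?_
  have := hw (Fin.castSucc_lt_succ (i := i))
  omega

/-- the normalised square -/
noncomputable def T (N r : ℕ) (x y : Fin N → ℕ) : ℝ :=
  ‖D N r x y‖ ^ 2 / (‖D N r (vac N) x‖ ^ 2 * ‖D N r (vac N) y‖ ^ 2)

theorem norm_D_vac_pos {n r : ℕ} {x : Fin (n + 1) → ℕ} (hx : x ∈ colors (n + 1) r) (hr : 0 < r) :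
    0 < ‖D (n + 1) r (vac (n + 1)) x‖ := by
  obtain ⟨m, _, hg⟩ := exists_good hx
  have h1 := (mem_colors.1 (rotm_mem (m := m) hx)).2.1
  have h2 := norm_D_vac_ge (Nat.succ_pos n) hr h1 hg
  have h3 : ‖D (n + 1) r (vac (n + 1)) (rotm n r m x)‖ = ‖D (n + 1) r (vac (n + 1)) x‖ := by
    rw [D_symm, norm_D_rotm hx hr, D_symm]
  rw [← h3]
  refine lt_of_lt_of_le ?_ h2
  have hr' : (0 : ℝ) < r := by exact_mod_cast hr
  have : (0 : ℝ) < PI (n + 1) (rotm n r m x) := by exact_mod_cast PI_pos h1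
  positivity

theorem T_le {n r : ℕ} (hr : 0 < r) {x y : Fin (n + 1) → ℕ} (hx : x ∈ colors (n + 1) r)
    (hy : y ∈ colors (n + 1) r) : ∃ m ∈ range (n + 2), ∃ m' ∈ range (n + 2),
    T (n + 1) r x y ≤ ((n + 1).factorial : ℝ) ^ 2 * ((((n + 1 : ℕ) : ℝ) * r) / 4) ^ (n * (n + 2)) *
      ((G n (rotm n r m x) : ℝ)⁻¹ * (G n (rotm n r m' y) : ℝ)⁻¹) := by
  obtain ⟨m, hm, hg⟩ := exists_good hx
  obtain ⟨m', hm', hg'⟩ := exists_good hy
  refine ⟨m, hm, m', hm', ?_⟩
  set w := rotm n r m x with hw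
  set v := rotm n r m' y with hv
  have hr' : (0 : ℝ) < r := by exact_mod_cast hr
  have hws := (mem_colors.1 (rotm_mem (m := m) hx)).2.1
  have hvs := (mem_colors.1 (rotm_mem (m := m') hy)).2.1
  rw [← hw] at hws
  rw [← hv] at hvs
  have hax : ‖D (n + 1) r (vac (n + 1)) w‖ = ‖D (n + 1) r (vac (n + 1)) x‖ := by
    rw [hw, D_symm, norm_D_rotm hx hr, D_symm]
  have hay : ‖D (n + 1) r (vac (n + 1)) v‖ = ‖D (n + 1) r (vac (n + 1)) y‖ := by
    rw [hv, D_symm, norm_D_rotm hy hr, D_symm]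
  have hDxy : ‖D (n + 1) r w y‖ = ‖D (n + 1) r x y‖ := norm_D_rotm hx hr y
  set a := ‖D (n + 1) r (vac (n + 1)) x‖ with ha
  set b := ‖D (n + 1) r (vac (n + 1)) y‖ with hb
  have ha0 : 0 < a := norm_D_vac_pos hx hr
  have hb0 : 0 < b := norm_D_vac_pos hy hr
  set s : ℝ := (((n + 1 : ℕ) : ℝ) * r) / 4 with hs
  have hs0 : 0 < s := by rw [hs]; positivity
  have hsinv : (4 / (((n + 1 : ℕ) : ℝ) * r)) = s⁻¹ := by rw [hs, inv_div]
  set M := ∑ i : Fin (n + 1), #(Ioi i) with hM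
  have h2M : 2 * M = (n + 1) * n := by
    have := card_pairs (n + 1)
    rwa [Nat.add_sub_cancel] at this
  have lw := norm_D_vac_ge (Nat.succ_pos n) hr hws hg
  have lv := norm_D_vac_ge (Nat.succ_pos n) hr hvs hg'
  rw [hax, hsinv, ← hM, inv_pow, inv_mul_le_iff₀ (by positivity)] at lw
  rw [hay, hsinv, ← hM, inv_pow, inv_mul_le_iff₀ (by positivity)] at lv
  -- T ≤ s^(2M)
  have t1 : T (n + 1) r x y ≤ s ^ (2 * M) := by
    rw [T, div_le_iff₀ (by positivity)]
    have h1 : ‖D (n + 1) r x y‖ ≤ s ^ M * a * b := by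
      rw [← hDxy]
      refine (norm_D_le_prod (n + 1) r w y hws).trans ?_
      exact mul_le_mul_of_nonneg_right lw hb0.le
    calc ‖D (n + 1) r x y‖ ^ 2 ≤ (s ^ M * a * b) ^ 2 :=
          pow_le_pow_left₀ (norm_nonneg _) h1 2
      _ = s ^ (2 * M) * (a ^ 2 * b ^ 2) := by ring
  have Gw : (G n w : ℝ) ^ (n + 1) ≤ s ^ (2 * M) * a ^ 2 := by
    have h1 : ((G n w ^ (n + 1) : ℕ) : ℝ) ≤ ((PI (n + 1) w ^ 2 : ℕ) : ℝ) := by
      exact_mod_cast G_pow_le n w hws
    push_cast at h1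
    refine h1.trans ?_
    calc (PI (n + 1) w : ℝ) ^ 2 ≤ (s ^ M * a) ^ 2 := pow_le_pow_left₀ (by positivity) lw 2
      _ = s ^ (2 * M) * a ^ 2 := by ring
  have Gv : (G n v : ℝ) ^ (n + 1) ≤ s ^ (2 * M) * b ^ 2 := by
    have h1 : ((G n v ^ (n + 1) : ℕ) : ℝ) ≤ ((PI (n + 1) v ^ 2 : ℕ) : ℝ) := by
      exact_mod_cast G_pow_le n v hvs
    push_cast at h1
    refine h1.trans ?_
    calc (PI (n + 1) v : ℝ) ^ 2 ≤ (s ^ M * b) ^ 2 := pow_le_pow_left₀ (by positivity) lv 2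
      _ = s ^ (2 * M) * b ^ 2 := by ring
  have Gw0 : (0 : ℝ) < G n w := by exact_mod_cast G_pos hws
  have Gv0 : (0 : ℝ) < G n v := by exact_mod_cast G_pos hvs
  have t2 : T (n + 1) r x y ≤ ((n + 1).factorial : ℝ) ^ 2 * s ^ (4 * M) *
      (((G n w : ℝ) ^ (n + 1))⁻¹ * ((G n v : ℝ) ^ (n + 1))⁻¹) := by
    rw [T, div_le_iff₀ (by positivity)]
    have h1 := norm_D_le (n + 1) r x y
    have h2 : 1 ≤ (s ^ (2 * M) * a ^ 2) * ((G n w : ℝ) ^ (n + 1))⁻¹ := by
      rw [le_mul_inv_iff₀ (by positivity), one_mul]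
      exact Gw
    have h3 : 1 ≤ (s ^ (2 * M) * b ^ 2) * ((G n v : ℝ) ^ (n + 1))⁻¹ := by
      rw [le_mul_inv_iff₀ (by positivity), one_mul]
      exact Gv
    calc ‖D (n + 1) r x y‖ ^ 2 ≤ ((n + 1).factorial : ℝ) ^ 2 * (1 * 1) := by
          rw [mul_one, mul_one]
          exact pow_le_pow_left₀ (norm_nonneg _) h1 2
      _ ≤ ((n + 1).factorial : ℝ) ^ 2 * (((s ^ (2 * M) * a ^ 2) * ((G n w : ℝ) ^ (n + 1))⁻¹) *
            ((s ^ (2 * M) * b ^ 2) * ((G n v : ℝ) ^ (n + 1))⁻¹)) := by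
          gcongr
      _ = _ := by ring
  have T0 : 0 ≤ T (n + 1) r x y := by rw [T]; positivity
  have key : T (n + 1) r x y ^ (n + 1) ≤ (((n + 1).factorial : ℝ) ^ 2 * s ^ (n * (n + 2)) *
      ((G n w : ℝ)⁻¹ * (G n v : ℝ)⁻¹)) ^ (n + 1) := by
    calc T (n + 1) r x y ^ (n + 1) = T (n + 1) r x y ^ n * T (n + 1) r x y := pow_succ _ _
      _ ≤ (s ^ (2 * M)) ^ n * (((n + 1).factorial : ℝ) ^ 2 * s ^ (4 * M) *
          (((G n w : ℝ) ^ (n + 1))⁻¹ * ((G n v : ℝ) ^ (n + 1))⁻¹)) := by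
          gcongr
      _ = ((n + 1).factorial : ℝ) ^ 2 * s ^ (n * (n + 2) * (n + 1)) *
          ((G n w : ℝ)⁻¹ * (G n v : ℝ)⁻¹) ^ (n + 1) := by
          have h5 : 2 * M * n + 4 * M = n * (n + 2) * (n + 1) := by
            have : 4 * M = 2 * ((n + 1) * n) := by omega
            rw [this, h2M]; ring
          rw [← h5, mul_pow, inv_pow, inv_pow]
          ring
      _ ≤ (((n + 1).factorial : ℝ) ^ 2) ^ (n + 1) * s ^ (n * (n + 2) * (n + 1)) *
          ((G n w : ℝ)⁻¹ * (G n v : ℝ)⁻¹) ^ (n + 1) := by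
          have h6 : (1 : ℝ) ≤ ((n + 1).factorial : ℝ) ^ 2 := by
            have : (1 : ℝ) ≤ ((n + 1).factorial : ℝ) := by exact_mod_cast Nat.factorial_pos _
            nlinarith
          gcongr
          exact le_self_pow₀ h6 (Nat.succ_ne_zero n)
      _ = _ := by
          rw [pow_mul, ← mul_pow, ← mul_pow]
  exact le_of_pow_le_pow_left₀ (Nat.succ_ne_zero n) (by positivity) key

end Pool.Agent.Helper15.AllN
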