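import Mathlib
import Pool.Agent.Helper15.AllN.Upper

open Finset
open scoped Real

namespace Pool.Agent.Helper15.AllN

/-- the double sum -/
noncomputable def W (N r : ℕ) : ℝ := ∑ x ∈ colors N r, ∑ y ∈ colors N r, T N r x y

/-- the colour with given gaps -/
def ofGap (n : ℕ) (g : Fin n → ℕ) : Fin (n + 1) → ℕ :=
  fun i => ∑ l : Fin n, if l.castSucc < i then g l else 0

theorem ofGap_zero (n : ℕ) (g : Fin n → ℕ) : ofGap n g 0 = 0 := by
  simp [ofGap]

theorem ofGap_succ (n : ℕ) (g : Fin n → ℕ) (i : Fin n) :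
    ofGap n g i.succ = ofGap n g i.castSucc + g i := by
  simp only [ofGap]
  have h1 : ∀ l : Fin n, (if l.castSucc < i.succ then g l else 0) =
      (if l.castSucc < i.castSucc then g l else 0) + (if l = i then g l else 0) := by
    intro l
    by_cases h : l = i
    · subst h
      simp [Fin.castSucc_lt_succ]
    · by_cases h2 : l < i
      · have : l.castSucc < i.succ := by
          rw [Fin.castSucc_lt_succ_iff]; exact h2.le
        simp [this, h2, h]
      · have : ¬ l.castSucc < i.succ := by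
          rw [Fin.castSucc_lt_succ_iff]
          intro h3
          exact h2 (lt_of_le_of_ne h3 h)
        simp [this, h2, h]
  rw [Finset.sum_congr rfl fun l _ => h1 l, Finset.sum_add_distrib]
  simp

theorem ofGap_last (n : ℕ) (g : Fin n → ℕ) : ofGap n g (Fin.last n) = ∑ l, g l := by
  simp only [ofGap]
  refine Finset.sum_congr rfl fun l _ => ?_
  rw [if_pos (Fin.castSucc_lt_last l)]

theorem ofGap_strictMono {n : ℕ} {g : Fin n → ℕ} (hg : ∀ l, 1 ≤ g l) :
    StrictMono (ofGap n g) := by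
  rw [Fin.strictMono_iff_lt_succ]
  intro i
  rw [ofGap_succ]
  have := hg i
  omega

theorem ofGap_injective (n : ℕ) : Function.Injective (ofGap n) := by
  intro g g' h
  ext i
  have h1 := ofGap_succ n g i
  have h2 := ofGap_succ n g' i
  rw [h] at h1
  omega

theorem ofGap_mem {n r : ℕ} {g : Fin n → ℕ} (hg : ∀ l, 1 ≤ g l) (hs : ∑ l, g l < r) :
    ofGap n g ∈ colors (n + 1) r := by
  rw [mem_colors]
  have hm := ofGap_strictMono hg
  refine ⟨fun i => ?_, hm, ofGap_zero n g⟩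
  have := hm.monotone (Fin.le_last i)
  rw [ofGap_last] at this
  omega

theorem ofGap_le {n : ℕ} {g : Fin n → ℕ} (hg : ∀ l, 1 ≤ g l) (i : Fin (n + 1)) :
    ofGap n g i ≤ ∑ l, g l := by
  have := (ofGap_strictMono hg).monotone (Fin.le_last i)
  rwa [ofGap_last] at this

/-! ### upper bound -/

theorem sum_inv_G_le (n r : ℕ) : ∑ w ∈ colors (n + 1) r, (G n w : ℝ)⁻¹ ≤
    (∑ g ∈ Icc 1 r, (g : ℝ)⁻¹) ^ n := by
  have hinj : Set.InjOn (fun (w : Fin (n + 1) → ℕ) (l : Fin n) => w l.succ - w l.castSucc)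
      (colors (n + 1) r : Set (Fin (n + 1) → ℕ)) := by
    intro w hw v hv hwv
    have hw' := mem_colors.1 hw
    have hv' := mem_colors.1 hv
    ext i
    induction i using Fin.induction with
    | zero => rw [hw'.2.2, hv'.2.2]
    | succ i ih =>
      have h1 := congrFun hwv i
      simp only at h1
      have h2 := hw'.2.1 (Fin.castSucc_lt_succ (i := i))
      have h3 := hv'.2.1 (Fin.castSucc_lt_succ (i := i))
      omega
  have h1 : ∀ w : Fin (n + 1) → ℕ, (G n w : ℝ)⁻¹ =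
      (fun g : Fin n → ℕ => ∏ l, ((g l : ℝ))⁻¹) (fun l => w l.succ - w l.castSucc) := by
    intro w
    simp only [G]
    push_cast
    rw [Finset.prod_inv_distrib]
  rw [Finset.sum_congr rfl fun w _ => h1 w, ← Finset.sum_image (f := fun g : Fin n → ℕ =>
    ∏ l, ((g l : ℝ))⁻¹) hinj]
  have h2 : (∑ g ∈ Icc 1 r, (g : ℝ)⁻¹) ^ n =
      ∑ g ∈ Fintype.piFinset (fun _ : Fin n => Icc 1 r), ∏ l, ((g l : ℝ))⁻¹ := by
    have := Finset.prod_univ_sum (fun _ : Fin n => Icc 1 r) (fun _ g => ((g : ℝ))⁻¹)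
    rw [← this, Finset.prod_const, Finset.card_univ, Fintype.card_fin]
  rw [h2]
  refine Finset.sum_le_sum_of_subset_of_nonneg ?_ fun g _ _ => by positivity
  intro g hg
  rw [Finset.mem_image] at hg
  obtain ⟨w, hw, rfl⟩ := hg
  rw [Fintype.mem_piFinset]
  intro l
  rw [mem_Icc]
  have hw' := mem_colors.1 hw
  have h2 := hw'.2.1 (Fin.castSucc_lt_succ (i := l))
  have h3 := hw'.1 l.succ
  omega

theorem sum_inv_Icc_le (r : ℕ) : ∑ g ∈ Icc 1 r, (g : ℝ)⁻¹ ≤ 1 + Real.log r := by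
  have h := harmonic_le_one_add_log r
  rw [harmonic_eq_sum_Icc] at h
  push_cast at h
  exact h

theorem W_le {n r : ℕ} (hr : 0 < r) :
    W (n + 1) r ≤ ((n + 1).factorial : ℝ) ^ 2 * ((((n + 1 : ℕ) : ℝ) * r) / 4) ^ (n * (n + 2)) *
      (((n : ℝ) + 2) * (1 + Real.log r) ^ n) ^ 2 := by
  set K : ℝ := ((n + 1).factorial : ℝ) ^ 2 * ((((n + 1 : ℕ) : ℝ) * r) / 4) ^ (n * (n + 2)) with hK
  have hK0 : 0 ≤ K := by positivity
  set H : (Fin (n + 1) → ℕ) → ℝ := fun x => ∑ m ∈ range (n + 2), (G n (rotm n r m x) : ℝ)⁻¹ with hH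
  have h1 : ∀ x ∈ colors (n + 1) r, ∀ y ∈ colors (n + 1) r, T (n + 1) r x y ≤ K * (H x * H y) := by
    intro x hx y hy
    obtain ⟨m, hm, m', hm', h⟩ := T_le hr hx hy
    refine h.trans ?_
    refine mul_le_mul_of_nonneg_left ?_ hK0
    have e1 : (G n (rotm n r m x) : ℝ)⁻¹ ≤ H x :=
      Finset.single_le_sum (f := fun m => (G n (rotm n r m x) : ℝ)⁻¹)
        (fun _ _ => by positivity) hm
    have e2 : (G n (rotm n r m' y) : ℝ)⁻¹ ≤ H y :=
      Finset.single_le_sum (f := fun m => (G n (rotm n r m y) : ℝ)⁻¹)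
        (fun _ _ => by positivity) hm'
    exact mul_le_mul e1 e2 (by positivity) (le_trans (by positivity) e1)
  have h2 : W (n + 1) r ≤ K * (∑ x ∈ colors (n + 1) r, H x) ^ 2 := by
    rw [W]
    calc ∑ x ∈ colors (n + 1) r, ∑ y ∈ colors (n + 1) r, T (n + 1) r x y
        ≤ ∑ x ∈ colors (n + 1) r, ∑ y ∈ colors (n + 1) r, K * (H x * H y) :=
          Finset.sum_le_sum fun x hx => Finset.sum_le_sum fun y hy => h1 x hx y hy
      _ = K * (∑ x ∈ colors (n + 1) r, H x) ^ 2 := by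
          rw [sq, Finset.sum_mul_sum, Finset.mul_sum]
          refine Finset.sum_congr rfl fun x _ => ?_
          rw [Finset.mul_sum]
  have h3 : ∑ x ∈ colors (n + 1) r, H x ≤ ((n : ℝ) + 2) * (1 + Real.log r) ^ n := by
    rw [hH]
    rw [Finset.sum_comm]
    have h4 : ∀ m ∈ range (n + 2), ∑ x ∈ colors (n + 1) r, (G n (rotm n r m x) : ℝ)⁻¹ ≤
        (1 + Real.log r) ^ n := by
      intro m hm
      have hm' : m ≤ n + 1 := by
        rw [Finset.mem_range] at hm; omega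
      rw [← Finset.sum_image (f := fun w => (G n w : ℝ)⁻¹) (rotm_injOn n r m hm')]
      refine (Finset.sum_le_sum_of_subset_of_nonneg ?_ fun g _ _ => by positivity).trans
        ((sum_inv_G_le n r).trans ?_)
      · intro w hw
        rw [Finset.mem_image] at hw
        obtain ⟨x, hx, rfl⟩ := hw
        exact rotm_mem hx
      · exact pow_le_pow_left₀ (Finset.sum_nonneg fun _ _ => by positivity) (sum_inv_Icc_le r) n
    refine (Finset.sum_le_sum h4).trans ?_
    rw [Finset.sum_const, Finset.card_range, nsmul_eq_mul]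
    push_cast
    exact le_refl _
  refine h2.trans ?_
  refine mul_le_mul_of_nonneg_left ?_ hK0
  exact pow_le_pow_left₀ (Finset.sum_nonneg fun x _ => Finset.sum_nonneg fun _ _ => by positivity)
    h3 2

/-! ### lower bound -/

theorem norm_D_vac_vac_le (N r : ℕ) (hr : 0 < r) (hN : N ≤ r) :
    ‖D N r (vac N) (vac N)‖ ≤ (2 * π * N / r) ^ (∑ i : Fin N, #(Ioi i)) := by
  rw [norm_D_vac, ← prod_pairs_const]
  have hr' : (0 : ℝ) < r := by exact_mod_cast hr
  refine Finset.prod_le_prod (fun i _ => Finset.prod_nonneg fun _ _ => norm_nonneg _) fun i _ => ?_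
  refine Finset.prod_le_prod (fun _ _ => norm_nonneg _) fun j hj => ?_
  have hij : i < j := by simpa using hj
  have h1 : (i : ℕ) ≤ j := hij.le
  have h2 : (j : ℕ) < N := j.2
  simp only [vac]
  rw [norm_om_sub h1 (by omega) hr]
  have h3 : (0 : ℝ) ≤ ((j : ℕ) : ℝ) - ((i : ℕ) : ℝ) := by
    have : ((i : ℕ) : ℝ) ≤ ((j : ℕ) : ℝ) := by exact_mod_cast h1
    linarith
  have h4 : ((j : ℕ) : ℝ) - ((i : ℕ) : ℝ) ≤ N := by
    have e1 : ((j : ℕ) : ℝ) ≤ N := by exact_mod_cast h2.le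
    have e2 : (0 : ℝ) ≤ ((i : ℕ) : ℝ) := Nat.cast_nonneg _
    linarith
  have h5 : Real.sin (π * (((j : ℕ) : ℝ) - ((i : ℕ) : ℝ)) / r) ≤
      π * (((j : ℕ) : ℝ) - ((i : ℕ) : ℝ)) / r := Real.sin_le (by positivity)
  calc 2 * Real.sin (π * (((j : ℕ) : ℝ) - ((i : ℕ) : ℝ)) / r)
      ≤ 2 * (π * (((j : ℕ) : ℝ) - ((i : ℕ) : ℝ)) / r) := by linarith
    _ ≤ 2 * (π * N / r) := by
        have := Real.pi_pos
        gcongr
    _ = 2 * π * N / r := by ring

theorem T_ge {n r : ℕ} (hr : 0 < r) (hN : n + 1 ≤ r) {x y : Fin (n + 1) → ℕ}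
    (hx : x ∈ colors (n + 1) r) (hy : y ∈ colors (n + 1) r) (B : ℕ) (hyB : ∀ i, y i ≤ B)
    (hB : 6 * (B * ∑ i, x i) ≤ r) :
    (1 / 4) * ((r : ℝ) / (2 * π * (n + 1 : ℕ))) ^ ((n + 1) * n) ≤ T (n + 1) r x y := by
  have hxs := (mem_colors.1 hx).2.1
  have h1 := norm_D_ge (n + 1) r x y hxs hr B hyB hB
  set a := ‖D (n + 1) r (vac (n + 1)) x‖ with ha
  set b := ‖D (n + 1) r (vac (n + 1)) y‖ with hb
  have ha0 : 0 < a := norm_D_vac_pos hx hr
  have hb0 : 0 < b := norm_D_vac_pos hy hr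
  set v := ‖D (n + 1) r (vac (n + 1)) (vac (n + 1))‖ with hv
  have h2 := norm_D_vac_vac_le (n + 1) r hr hN
  rw [← hv] at h2
  set M := ∑ i : Fin (n + 1), #(Ioi i) with hM
  have h2M : 2 * M = (n + 1) * n := by
    have := card_pairs (n + 1)
    rwa [Nat.add_sub_cancel] at this
  have hr' : (0 : ℝ) < r := by exact_mod_cast hr
  have hpi := Real.pi_pos
  set s : ℝ := 2 * π * (n + 1 : ℕ) / r with hs
  have hs0 : 0 < s := by rw [hs]; positivity
  have hsinv : (r : ℝ) / (2 * π * (n + 1 : ℕ)) = s⁻¹ := by rw [hs, inv_div]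
  rw [hsinv, T, le_div_iff₀ (by positivity), ← h2M]
  have h3 : a * b ≤ 2 * ‖D (n + 1) r x y‖ * s ^ M := by
    refine h1.trans ?_
    exact mul_le_mul_of_nonneg_left h2 (by positivity)
  have h4 : (a * b) ^ 2 ≤ (2 * ‖D (n + 1) r x y‖ * s ^ M) ^ 2 :=
    pow_le_pow_left₀ (by positivity) h3 2
  rw [inv_pow]
  calc 1 / 4 * (s ^ (2 * M))⁻¹ * (a ^ 2 * b ^ 2) = 1 / 4 * (s ^ (2 * M))⁻¹ * (a * b) ^ 2 := by ring
    _ ≤ 1 / 4 * (s ^ (2 * M))⁻¹ * (2 * ‖D (n + 1) r x y‖ * s ^ M) ^ 2 := by gcongr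
    _ = ‖D (n + 1) r x y‖ ^ 2 := by
        have : (s ^ (2 * M)) ≠ 0 := by positivity
        have e : (s ^ M) ^ 2 = s ^ (2 * M) := by ring
        rw [mul_pow, mul_pow, e]
        field_simp
        norm_num

/-- boxes of colours -/
def box (n lo hi : ℕ) : Finset (Fin (n + 1) → ℕ) :=
  (Fintype.piFinset fun _ : Fin n => Ico lo hi).image (ofGap n)

theorem card_box (n lo hi : ℕ) : #(box n lo hi) = (hi - lo) ^ n := by
  rw [box, Finset.card_image_of_injective _ (ofGap_injective n), Fintype.card_piFinset]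
  simp

theorem mem_box {n lo hi : ℕ} {x : Fin (n + 1) → ℕ} (hx : x ∈ box n lo hi) (hlo : 1 ≤ lo) :
    (∀ i, x i ≤ n * hi) ∧ StrictMono x ∧ x 0 = 0 ∧ ∀ l : Fin n, lo ≤ x l.succ - x l.castSucc ∧
      x l.succ - x l.castSucc < hi := by
  rw [box, Finset.mem_image] at hx
  obtain ⟨g, hg, rfl⟩ := hx
  rw [Fintype.mem_piFinset] at hg
  have hg1 : ∀ l, 1 ≤ g l := fun l => hlo.trans (mem_Ico.1 (hg l)).1
  refine ⟨fun i => ?_, ofGap_strictMono hg1, ofGap_zero n g, fun l => ?_⟩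
  · refine (ofGap_le hg1 i).trans ?_
    calc ∑ l, g l ≤ ∑ _l : Fin n, hi := Finset.sum_le_sum fun l _ => (mem_Ico.1 (hg l)).2.le
      _ = n * hi := by simp
  · rw [ofGap_succ, Nat.add_sub_cancel_left]
    exact mem_Ico.1 (hg l)

/-- lower bound with `K` dyadic scales -/
theorem W_ge {n r K : ℕ} (hn : 1 ≤ n) (hr : 36 * (n + 1) * n ^ 2 * 2 ^ K ≤ r) :
    (K : ℝ) * ((1 / 4) * ((r : ℝ) / (2 * π * (n + 1 : ℕ))) ^ ((n + 1) * n) *
      ((r : ℝ) / (24 * (n + 1) * n ^ 2)) ^ n) ≤ W (n + 1) r := by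
  have hn2 : 1 ≤ n ^ 2 := Nat.one_le_pow _ _ hn
  have h2K : 1 ≤ 2 ^ K := Nat.one_le_two_pow
  have hr24 : 36 * (n + 1) ≤ r := by
    calc 36 * (n + 1) = 36 * (n + 1) * 1 * 1 := by ring
      _ ≤ 36 * (n + 1) * n ^ 2 * 2 ^ K := by gcongr
      _ ≤ r := hr
  have hr0 : 0 < r := by omega
  have hr' : (0 : ℝ) < r := by exact_mod_cast hr0
  set c : ℝ := (1 / 4) * ((r : ℝ) / (2 * π * (n + 1 : ℕ))) ^ ((n + 1) * n) with hc
  have hc0 : 0 ≤ c := by
    have := Real.pi_pos
    positivity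
  -- size of the partner box at scale `j`
  set Y : ℕ → ℕ := fun j => r / (12 * (n + 1) * n ^ 2 * 2 ^ j) with hY
  have hYpos : ∀ j < K, 3 ≤ Y j := by
    intro j hj
    rw [hY]
    simp only
    rw [Nat.le_div_iff_mul_le (by positivity)]
    have : 2 ^ j ≤ 2 ^ K := Nat.pow_le_pow_right (by norm_num) hj.le
    calc 3 * (12 * (n + 1) * n ^ 2 * 2 ^ j) = 36 * (n + 1) * n ^ 2 * 2 ^ j := by ring
      _ ≤ 36 * (n + 1) * n ^ 2 * 2 ^ K := Nat.mul_le_mul_left _ this
      _ ≤ r := hr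
  have hYr : ∀ j, 12 * (n + 1) * n ^ 2 * 2 ^ j * Y j ≤ r := fun j => Nat.mul_div_le _ _
  -- the boxes
  set X : ℕ → Finset (Fin (n + 1) → ℕ) := fun j => box n (2 ^ j) (2 ^ (j + 1)) with hX
  set V : ℕ → Finset (Fin (n + 1) → ℕ) := fun j => box n 1 (Y j) with hV
  have hXmem : ∀ j < K, X j ⊆ colors (n + 1) r := by
    intro j hj x hx
    obtain ⟨h1, h2, h3, _⟩ := mem_box hx Nat.one_le_two_pow
    rw [mem_colors]
    refine ⟨fun i => lt_of_le_of_lt (h1 i) ?_, h2, h3⟩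
    have : 2 ^ (j + 1) ≤ 2 ^ K := Nat.pow_le_pow_right (by norm_num) hj
    calc n * 2 ^ (j + 1) ≤ n * 2 ^ K := Nat.mul_le_mul_left _ this
      _ < 36 * (n + 1) * n ^ 2 * 2 ^ K := by
          apply Nat.mul_lt_mul_of_pos_right _ (by positivity)
          calc n < n + 1 := Nat.lt_succ_self n
            _ = 1 * (n + 1) * 1 := by ring
            _ ≤ 36 * (n + 1) * n ^ 2 := by gcongr; norm_num
      _ ≤ r := hr
  have hVmem : ∀ j < K, V j ⊆ colors (n + 1) r := by
    intro j hj x hx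
    obtain ⟨h1, h2, h3, _⟩ := mem_box hx le_rfl
    rw [mem_colors]
    refine ⟨fun i => lt_of_le_of_lt (h1 i) ?_, h2, h3⟩
    have hY2 := hYpos j hj
    calc n * Y j < 12 * (n + 1) * n ^ 2 * 2 ^ j * Y j := by
          apply Nat.mul_lt_mul_of_pos_right _ (by omega)
          calc n < n + 1 := Nat.lt_succ_self n
            _ = 1 * (n + 1) * 1 * 1 := by ring
            _ ≤ 12 * (n + 1) * n ^ 2 * 2 ^ j := by
                gcongr
                · norm_num
                · exact Nat.one_le_two_pow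
      _ ≤ r := hYr j
  have hdisj : (range K : Set ℕ).PairwiseDisjoint X := by
    intro i _ j _ hij
    rw [Function.onFun, Finset.disjoint_left]
    intro x hxi hxj
    obtain ⟨_, _, _, h4⟩ := mem_box hxi Nat.one_le_two_pow
    obtain ⟨_, _, _, h5⟩ := mem_box hxj Nat.one_le_two_pow
    have a1 := h4 ⟨0, hn⟩
    have a2 := h5 ⟨0, hn⟩
    set d := x (Fin.succ ⟨0, hn⟩) - x (Fin.castSucc ⟨0, hn⟩) with hd
    have b1 : 2 ^ i < 2 ^ (j + 1) := lt_of_le_of_lt a1.1 a2.2
    have b2 : 2 ^ j < 2 ^ (i + 1) := lt_of_le_of_lt a2.1 a1.2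
    have c1 := (Nat.pow_lt_pow_iff_right (by norm_num : 1 < 2)).1 b1
    have c2 := (Nat.pow_lt_pow_iff_right (by norm_num : 1 < 2)).1 b2
    omega
  have hT0 : ∀ x y, 0 ≤ T (n + 1) r x y := fun x y => by rw [T]; positivity
  have hblock : ∀ j < K, c * ((r : ℝ) / (24 * (n + 1) * n ^ 2)) ^ n ≤
      ∑ x ∈ X j, ∑ y ∈ colors (n + 1) r, T (n + 1) r x y := by
    intro j hj
    have hY2 := hYpos j hj
    have e1 : ∀ x ∈ X j, ((Y j - 1 : ℕ) : ℝ) ^ n * c ≤ ∑ y ∈ colors (n + 1) r, T (n + 1) r x y := by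
      intro x hx
      calc ((Y j - 1 : ℕ) : ℝ) ^ n * c = ∑ _y ∈ V j, c := by
            rw [Finset.sum_const, hV]
            simp only
            rw [card_box, nsmul_eq_mul]
            push_cast
            rfl
        _ ≤ ∑ y ∈ V j, T (n + 1) r x y := by
            refine Finset.sum_le_sum fun y hy => ?_
            obtain ⟨h1, h2, h3, _⟩ := mem_box hy le_rfl
            obtain ⟨g1, g2, g3, _⟩ := mem_box hx Nat.one_le_two_pow
            refine T_ge hr0 (by omega) (hXmem j hj hx) (hVmem j hj hy) (n * Y j) h1 ?_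
            calc 6 * (n * Y j * ∑ i, x i) ≤ 6 * (n * Y j * ∑ _i : Fin (n + 1), n * 2 ^ (j + 1)) := by
                  gcongr with i _
                  exact g1 i
              _ = 12 * (n + 1) * n ^ 2 * 2 ^ j * Y j := by
                  rw [Finset.sum_const, Finset.card_univ, Fintype.card_fin, smul_eq_mul]
                  ring
              _ ≤ r := hYr j
        _ ≤ ∑ y ∈ colors (n + 1) r, T (n + 1) r x y :=
            Finset.sum_le_sum_of_subset_of_nonneg (hVmem j hj) fun y _ _ => hT0 x y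
    calc c * ((r : ℝ) / (24 * (n + 1) * n ^ 2)) ^ n
        ≤ c * (2 ^ j * ((Y j - 1 : ℕ) : ℝ)) ^ n := by
          refine mul_le_mul_of_nonneg_left ?_ hc0
          refine pow_le_pow_left₀ (by positivity) ?_ n
          -- r / (24 (n+1) n^2) ≤ 2^j (Y j - 1)
          rw [div_le_iff₀ (by positivity)]
          have f1 : r < 12 * (n + 1) * n ^ 2 * 2 ^ j * (Y j + 1) := by
            rw [mul_comm]
            exact Nat.lt_mul_of_div_lt (Nat.lt_succ_self _) (by positivity)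
          have f2 : r ≤ 12 * (n + 1) * n ^ 2 * 2 ^ j * (2 * (Y j - 1)) := by
            refine f1.le.trans (Nat.mul_le_mul_left _ ?_)
            omega
          have f3 : (r : ℝ) ≤ ((12 * (n + 1) * n ^ 2 * 2 ^ j * (2 * (Y j - 1)) : ℕ) : ℝ) := by
            exact_mod_cast f2
          refine f3.trans (le_of_eq ?_)
          push_cast
          ring
      _ = ∑ _x ∈ X j, ((Y j - 1 : ℕ) : ℝ) ^ n * c := by
          rw [Finset.sum_const, hX]
          simp only
          rw [card_box, nsmul_eq_mul, mul_pow]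
          have : 2 ^ (j + 1) - 2 ^ j = 2 ^ j := by
            rw [pow_succ]; omega
          rw [this]
          push_cast
          ring
      _ ≤ _ := Finset.sum_le_sum e1
  calc (K : ℝ) * (c * ((r : ℝ) / (24 * (n + 1) * n ^ 2)) ^ n)
      = ∑ _j ∈ range K, c * ((r : ℝ) / (24 * (n + 1) * n ^ 2)) ^ n := by
        rw [Finset.sum_const, Finset.card_range, nsmul_eq_mul]
    _ ≤ ∑ j ∈ range K, ∑ x ∈ X j, ∑ y ∈ colors (n + 1) r, T (n + 1) r x y :=
        Finset.sum_le_sum fun j hj => hblock j (Finset.mem_range.1 hj)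
    _ = ∑ x ∈ (range K).biUnion X, ∑ y ∈ colors (n + 1) r, T (n + 1) r x y := by
        rw [Finset.sum_biUnion hdisj]
    _ ≤ W (n + 1) r := by
        rw [W]
        refine Finset.sum_le_sum_of_subset_of_nonneg ?_
          fun x _ _ => Finset.sum_nonneg fun y _ => hT0 x y
        intro x hx
        rw [Finset.mem_biUnion] at hx
        obtain ⟨j, hj, hxj⟩ := hx
        exact hXmem j (Finset.mem_range.1 hj) hxj

end Pool.Agent.Helper15.AllN
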