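import Mathlib
import Pool.Agent.Helper15.AllN.Sum

open Finset
open scoped Real

namespace Pool.Agent.Helper15.AllN

/-- the scalar `sqrt (N r^(N-1))` -/
noncomputable def nrm (N r : ℕ) : ℝ := Real.sqrt (N * (r : ℝ) ^ (N - 1))

theorem Smat_eq (N r : ℕ) (x y : Fin N → ℕ) :
    Smat N r x y = Complex.I ^ (N * (N - 1) / 2) / (nrm N r : ℂ) *
      (Complex.exp ((((2 * π / r) * ((∑ i, (x i : ℝ)) * (∑ i, (y i : ℝ)) / N) : ℝ) : ℂ) *
        Complex.I) * D N r x y) := by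
  rw [Smat, nrm, D, Matrix.det_apply]
  congr 1
  rw [Finset.mul_sum]
  refine Finset.sum_congr rfl fun w _ => ?_
  rw [Units.smul_def, zsmul_eq_mul, mul_left_comm]
  congr 1
  have h1 : ∏ i, (Matrix.of fun i j : Fin N => om r ^ (x i * y j)) (w i) i =
      Complex.exp (-(2 * π * Complex.I / r) * ∑ i, ((x (w i) : ℂ) * y i)) := by
    simp only [Matrix.of_apply, om_pow]
    rw [← Complex.exp_sum, ← Finset.mul_sum]
    push_cast
    rfl
  rw [h1, ← Complex.exp_add]
  congr 1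
  rw [ip]
  have h2 : ∑ i, ((x (w i) : ℕ) : ℝ) = ∑ i, (x i : ℝ) :=
    Equiv.sum_comp w fun i => (x i : ℝ)
  rw [h2]
  push_cast
  ring

theorem norm_Smat (N r : ℕ) (x y : Fin N → ℕ) : ‖Smat N r x y‖ = ‖D N r x y‖ / nrm N r := by
  rw [Smat_eq, norm_mul, norm_mul, norm_div, norm_pow, Complex.norm_I, one_pow,
    Complex.norm_exp_ofReal_mul_I, one_mul, Complex.norm_real, Real.norm_of_nonneg
      (by rw [nrm]; exact Real.sqrt_nonneg _)]
  ring

theorem om_sub (r a b : ℕ) : om r ^ b - om r ^ a =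
    (-Complex.I) * Complex.exp (((-(π / r) * ((a : ℝ) + b) : ℝ) : ℂ) * Complex.I) *
      ((2 * Real.sin (π * ((b : ℝ) - a) / r) : ℝ) : ℂ) := by
  rw [om_pow, om_pow]
  push_cast
  rw [Complex.sin]
  have h1 : -(2 * (π : ℂ) * Complex.I / r) * b =
      (-(π / r) * ((a : ℂ) + b)) * Complex.I + -(π * ((b : ℂ) - a) / r) * Complex.I := by ring
  have h2 : -(2 * (π : ℂ) * Complex.I / r) * a =
      (-(π / r) * ((a : ℂ) + b)) * Complex.I + (π * ((b : ℂ) - a) / r) * Complex.I := by ring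
  rw [h1, h2, Complex.exp_add, Complex.exp_add]
  have h3 : Complex.I * Complex.I = -1 := Complex.I_mul_I
  ring_nf
  rw [Complex.I_sq]
  ring

theorem D_vac (N r : ℕ) (y : Fin N → ℕ) :
    D N r (vac N) y = ∏ i, ∏ j ∈ Ioi i, (om r ^ y j - om r ^ y i) := by
  have : D N r (vac N) y = Matrix.det (Matrix.vandermonde fun j : Fin N => om r ^ y j) := by
    rw [D, ← Matrix.det_transpose]
    congr 1
    ext i j
    simp only [Matrix.transpose_apply, Matrix.of_apply, Matrix.vandermonde_apply, vac]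
    rw [← pow_mul, mul_comm]
  rw [this, Matrix.det_vandermonde]

theorem sum_pairs_add (N : ℕ) (g : Fin N → ℝ) :
    ∑ i, ∑ j ∈ Ioi i, (g i + g j) = ((N : ℝ) - 1) * ∑ i, g i := by
  have h1 : ∑ i, ∑ j ∈ Ioi i, g j = ∑ j, ∑ _i ∈ Iio j, g j := by
    rw [Finset.sum_comm' (t' := univ) (s' := fun j => Iio j)]
    intro x y
    simp
  simp only [Finset.sum_add_distrib]
  rw [h1]
  simp only [Finset.sum_const, nsmul_eq_mul]
  rw [← Finset.sum_add_distrib, Finset.mul_sum]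
  refine Finset.sum_congr rfl fun i _ => ?_
  rw [← add_mul]
  congr 1
  rw [Fin.card_Ioi, Fin.card_Iio]
  have h2 : N - 1 - (i : ℕ) + i + 1 = N := by have := i.isLt; omega
  have h3 : (((N - 1 - (i : ℕ) + i + 1 : ℕ)) : ℝ) = N := by rw [h2]
  push_cast at h3 ⊢
  linarith

theorem Smat_vac {N r : ℕ} (hN : 0 < N) (hr : 0 < r) {x : Fin N → ℕ} (hx : x ∈ colors N r) :
    Smat N r (vac N) x = ((‖D N r (vac N) x‖ / nrm N r : ℝ) : ℂ) := by
  have hxr : ∀ i, x i < r := by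
    intro i
    have := (Finset.mem_filter.1 hx).1
    simpa using (Fintype.mem_piFinset.1 this i)
  have hmono : StrictMono x := (Finset.mem_filter.1 hx).2.1
  have hprod : D N r (vac N) x = (-Complex.I) ^ (N * (N - 1) / 2) *
      Complex.exp (((-(π / r) * (((N : ℝ) - 1) * ∑ i, (x i : ℝ)) : ℝ) : ℂ) * Complex.I) *
      ((∏ i, ∏ j ∈ Ioi i, (2 * Real.sin (π * ((x j : ℝ) - x i) / r)) : ℝ) : ℂ) := by
    rw [D_vac]
    simp only [om_sub]
    simp only [Finset.prod_mul_distrib, Finset.prod_const]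
    rw [Finset.prod_pow_eq_pow_sum]
    have h1 : ∑ i : Fin N, #(Ioi i) = N * (N - 1) / 2 := by
      have := card_pairs N
      omega
    rw [h1]
    push_cast
    congr 2
    · have h5 := congrArg (fun t : ℝ => (t : ℂ)) (sum_pairs_add N (fun i => (x i : ℝ)))
      push_cast at h5
      rw [← h5]
      simp only [← Complex.exp_sum]
      congr 1
      push_cast
      rw [Finset.mul_sum, Finset.sum_mul]
      refine Finset.sum_congr rfl fun i _ => ?_
      rw [Finset.mul_sum, Finset.sum_mul]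
    · simp only [Finset.prod_mul_distrib, Finset.prod_const]
  have hsin : 0 ≤ ∏ i, ∏ j ∈ Ioi i, (2 * Real.sin (π * ((x j : ℝ) - x i) / r)) := by
    refine Finset.prod_nonneg fun i _ => Finset.prod_nonneg fun j hj => ?_
    have hij : x i < x j := hmono (by simpa using hj)
    have hij' : (x i : ℝ) < x j := by exact_mod_cast hij
    have hjr : (x j : ℝ) < r := by exact_mod_cast hxr j
    have hr' : (0 : ℝ) < r := by exact_mod_cast hr
    have : 0 ≤ Real.sin (π * ((x j : ℝ) - x i) / r) := by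
      apply Real.sin_nonneg_of_nonneg_of_le_pi
      · have : (0 : ℝ) ≤ (x j : ℝ) - x i := by linarith
        positivity
      · rw [div_le_iff₀ hr']
        have hx0 : (0 : ℝ) ≤ x i := Nat.cast_nonneg _
        exact mul_le_mul_of_nonneg_left (by linarith) Real.pi_pos.le
    linarith
  have hI : ‖(-Complex.I) ^ (N * (N - 1) / 2)‖ = 1 := by
    rw [norm_pow, norm_neg, Complex.norm_I, one_pow]
  have hnorm : ‖D N r (vac N) x‖ = ∏ i, ∏ j ∈ Ioi i, (2 * Real.sin (π * ((x j : ℝ) - x i) / r)) := by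
    rw [hprod, norm_mul, norm_mul, hI, Complex.norm_exp_ofReal_mul_I, one_mul, one_mul,
      Complex.norm_real, Real.norm_of_nonneg hsin]
  rw [Smat_eq, hnorm, hprod]
  have hvac : ∑ i : Fin N, ((vac N i : ℕ) : ℝ) = N * ((N : ℝ) - 1) / 2 := by
    simp only [vac]
    have h1 := Fin.sum_univ_eq_sum_range (fun i => (i : ℝ)) N
    rw [h1]
    have h2 := Finset.sum_range_id_mul_two N
    have h3 : ((∑ i ∈ range N, i : ℕ) : ℝ) * 2 = N * ((N : ℝ) - 1) := by
      have : (((∑ i ∈ range N, i) * 2 : ℕ) : ℝ) = ((N * (N - 1) : ℕ) : ℝ) := by rw [h2]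
      rw [Nat.cast_mul, Nat.cast_mul, Nat.cast_sub hN] at this
      simpa using this
    rw [Nat.cast_sum] at h3
    linarith
  rw [hvac]
  set P : ℝ := ∏ i, ∏ j ∈ Ioi i, (2 * Real.sin (π * ((x j : ℝ) - x i) / r)) with hP
  set S : ℝ := ∑ i, (x i : ℝ) with hS
  set m := N * (N - 1) / 2 with hm
  have hN' : (N : ℝ) ≠ 0 := by exact_mod_cast hN.ne'
  have hexp : Complex.exp ((((2 * π / r) * ((N * ((N : ℝ) - 1) / 2) * S / N) : ℝ) : ℂ) *
      Complex.I) * Complex.exp (((-(π / r) * (((N : ℝ) - 1) * S) : ℝ) : ℂ) * Complex.I) = 1 := by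
    rw [← Complex.exp_add, ← add_mul, ← Complex.ofReal_add]
    have : (2 * π / r) * ((N * ((N : ℝ) - 1) / 2) * S / N) + -(π / r) * (((N : ℝ) - 1) * S) = 0 := by
      field_simp
      ring
    rw [this]
    simp
  have hII : Complex.I ^ m * (-Complex.I) ^ m = 1 := by
    rw [← mul_pow]
    simp
  calc Complex.I ^ m / (nrm N r : ℂ) * (Complex.exp ((((2 * π / r) * ((N * ((N : ℝ) - 1) / 2) * S / N) : ℝ) : ℂ) *
      Complex.I) * ((-Complex.I) ^ m * Complex.exp (((-(π / r) * (((N : ℝ) - 1) * S) : ℝ) : ℂ) * Complex.I) * (P : ℂ)))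
      = (Complex.I ^ m * (-Complex.I) ^ m) * (Complex.exp ((((2 * π / r) * ((N * ((N : ℝ) - 1) / 2) * S / N) : ℝ) : ℂ) *
      Complex.I) * Complex.exp (((-(π / r) * (((N : ℝ) - 1) * S) : ℝ) : ℂ) * Complex.I)) * ((P : ℂ) / (nrm N r : ℂ)) := by ring
    _ = ((P / nrm N r : ℝ) : ℂ) := by rw [hexp, hII]; push_cast; ring

theorem nrm_pos {N r : ℕ} (hN : 0 < N) (hr : 0 < r) : 0 < nrm N r := by
  rw [nrm]
  have : (0 : ℝ) < N := by exact_mod_cast hN
  have : (0 : ℝ) < r := by exact_mod_cast hr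
  positivity

theorem nrm_sq (N r : ℕ) : nrm N r ^ 2 = N * (r : ℝ) ^ (N - 1) := by
  rw [nrm, Real.sq_sqrt]
  positivity

/-- the value of the invariant of `twoTori` -/
theorem Z_twoTori {N k : ℕ} (hN : 0 < N) :
    Z N k twoTori = ((N * ((k + N : ℕ) : ℝ) ^ (N - 1) * W N (k + N) : ℝ) : ℂ) := by
  have hr : 0 < k + N := by omega
  have h0 : twoTori.deg (0 : Fin 2) = 2 := rfl
  have h1 : twoTori.deg (1 : Fin 2) = 2 := rfl
  have key : Z N k twoTori = ∑ x ∈ Fintype.piFinset (fun _ : Fin 2 => colors N (k + N)),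
      ((Smat N (k + N) (vac N) (x 0)) ^ (-2 : ℤ) * (Smat N (k + N) (vac N) (x 1)) ^ (-2 : ℤ)) *
        (Smat N (k + N) (x 0) (x 1) * (starRingEnd ℂ) (Smat N (k + N) (x 0) (x 1))) := by
    rw [Z]
    refine Finset.sum_congr rfl fun x _ => ?_
    have e1 : (∏ v : Fin twoTori.V, Smat N (k + N) (vac N) (x v) ^
        (2 - 2 * (twoTori.genus v : ℤ) - (twoTori.deg v : ℤ)) *
        Tmat N (k + N) (x v) ^ twoTori.euler v) =
        (Smat N (k + N) (vac N) (x (0 : Fin 2)) ^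
        (2 - 2 * (twoTori.genus (0 : Fin 2) : ℤ) - (twoTori.deg (0 : Fin 2) : ℤ)) *
        Tmat N (k + N) (x (0 : Fin 2)) ^ twoTori.euler (0 : Fin 2)) *
        (Smat N (k + N) (vac N) (x (1 : Fin 2)) ^
        (2 - 2 * (twoTori.genus (1 : Fin 2) : ℤ) - (twoTori.deg (1 : Fin 2) : ℤ)) *
        Tmat N (k + N) (x (1 : Fin 2)) ^ twoTori.euler (1 : Fin 2)) := Fin.prod_univ_two _
    rw [e1, h0, h1]
    have e2 : twoTori.euler (0 : Fin 2) = 0 := rfl
    have e3 : twoTori.euler (1 : Fin 2) = 0 := rfl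
    have e4 : twoTori.genus (0 : Fin 2) = 1 := rfl
    have e5 : twoTori.genus (1 : Fin 2) = 1 := rfl
    rw [e2, e3, e4, e5, zpow_zero, zpow_zero, mul_one, mul_one]
    have e6 : (2 - 2 * ((1 : ℕ) : ℤ) - ((2 : ℕ) : ℤ)) = -2 := by norm_num
    rw [e6]
    congr 1
    have e7 : ∀ f : Fin 2 × Fin 2 × Bool → ℂ, (twoTori.edges.map f).prod =
        f (0, 1, true) * f (0, 1, false) := by
      intro f
      show ([((0 : Fin 2), (1 : Fin 2), true), ((0 : Fin 2), (1 : Fin 2), false)].map f).prod = _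
      simp
    refine (e7 _).trans ?_
    simp
  rw [key]
  have h2 : ∀ x ∈ Fintype.piFinset (fun _ : Fin 2 => colors N (k + N)),
      ((Smat N (k + N) (vac N) (x 0)) ^ (-2 : ℤ) * (Smat N (k + N) (vac N) (x 1)) ^ (-2 : ℤ)) *
        (Smat N (k + N) (x 0) (x 1) * (starRingEnd ℂ) (Smat N (k + N) (x 0) (x 1))) =
      ((N * ((k + N : ℕ) : ℝ) ^ (N - 1) * T N (k + N) (x 0) (x 1) : ℝ) : ℂ) := by
    intro x hx
    have hx0 := Fintype.mem_piFinset.1 hx 0
    have hx1 := Fintype.mem_piFinset.1 hx 1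
    rw [Smat_vac hN hr hx0, Smat_vac hN hr hx1, Complex.mul_conj, Complex.normSq_eq_norm_sq,
      norm_Smat]
    rw [← Complex.ofReal_zpow, ← Complex.ofReal_zpow, ← Complex.ofReal_mul, ← Complex.ofReal_mul]
    congr 1
    rw [← nrm_sq, T, zpow_neg, zpow_neg]
    have hn := (nrm_pos hN hr).ne'
    rw [show (2 : ℤ) = ((2 : ℕ) : ℤ) from rfl, zpow_natCast, zpow_natCast]
    rw [div_pow, div_pow, div_pow]
    obtain ⟨n, rfl⟩ : ∃ n, N = n + 1 := ⟨N - 1, by omega⟩
    have hp0 := (norm_D_vac_pos hx0 hr).ne'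
    have hp1 := (norm_D_vac_pos hx1 hr).ne'
    field_simp
  rw [Finset.sum_congr rfl h2, ← Complex.ofReal_sum, ← Finset.mul_sum]
  congr 2
  rw [W, ← Finset.sum_product']
  refine Finset.sum_bij' (fun x _ => (x 0, x 1)) (fun p _ => ![p.1, p.2]) ?_ ?_ ?_ ?_ ?_
  · intro x hx
    have := Fintype.mem_piFinset.1 hx
    exact Finset.mem_product.2 ⟨this 0, this 1⟩
  · intro p hp
    have := Finset.mem_product.1 hp
    refine Fintype.mem_piFinset.2 fun i => ?_
    fin_cases i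
    · exact this.1
    · exact this.2
  · intro x _
    ext i
    fin_cases i <;> rfl
  · intro p _
    rfl
  · intro x _
    rfl

end Pool.Agent.Helper15.AllN
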