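import Mathlib
import Pool.Agent.Helper15.AllN.Eval
import Pool.Agent.Helper15.NoExpansion

open Finset Filter
open scoped Real Topology

namespace Pool.Agent.Helper15.AllN

theorem norm_Z_twoTori {N k : ℕ} (hN : 0 < N) :
    ‖Z N k twoTori‖ = N * ((k + N : ℕ) : ℝ) ^ (N - 1) * W N (k + N) := by
  rw [Z_twoTori hN, Complex.norm_real, Real.norm_of_nonneg]
  refine mul_nonneg (by positivity) ?_
  rw [W]
  refine Finset.sum_nonneg fun x _ => Finset.sum_nonneg fun y _ => ?_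
  rw [T]
  positivity

theorem lower_limit {n : ℕ} (hn : 1 ≤ n) :
    Tendsto (fun k : ℕ => ‖Z (n + 1) k twoTori‖ /
      ((k : ℝ) + (n + 1 : ℕ)) ^ (((2 * ((n : ℤ) ^ 2 + 3 * n) : ℤ) : ℝ) / 2)) atTop atTop := by
  set c0 : ℝ := (n + 1 : ℕ) * (1 / 4 * (1 / (2 * π * (n + 1 : ℕ))) ^ ((n + 1) * n) *
    (1 / (24 * (n + 1) * n ^ 2)) ^ n) with hc0
  have hn' : (0 : ℝ) < n := by exact_mod_cast hn
  have hc0pos : 0 < c0 := by rw [hc0]; positivity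
  rw [tendsto_atTop]
  intro C
  obtain ⟨K, hK⟩ := exists_nat_ge (C / c0)
  have hKC : C ≤ K * c0 := by rwa [div_le_iff₀ hc0pos] at hK
  filter_upwards [eventually_ge_atTop (36 * (n + 1) * n ^ 2 * 2 ^ K)] with k hk
  have hkr : 36 * (n + 1) * n ^ 2 * 2 ^ K ≤ k + (n + 1) := by omega
  have h1 := W_ge hn hkr
  rw [norm_Z_twoTori (Nat.succ_pos n)]
  have hR : ((k : ℝ) + (n + 1 : ℕ)) = ((k + (n + 1) : ℕ) : ℝ) := by push_cast; ring
  rw [hR]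
  set R : ℝ := ((k + (n + 1) : ℕ) : ℝ) with hRdef
  have hRpos : 0 < R := by rw [hRdef]; positivity
  have he : (((2 * ((n : ℤ) ^ 2 + 3 * n) : ℤ) : ℝ) / 2) = ((n ^ 2 + 3 * n : ℕ) : ℝ) := by
    push_cast; ring
  rw [he, Real.rpow_natCast, le_div_iff₀ (by positivity)]
  refine (mul_le_mul_of_nonneg_right hKC (by positivity)).trans ?_
  have h2 : ((n + 1 : ℕ) : ℝ) * R ^ (n + 1 - 1) * ((K : ℝ) *
      ((1/4)*(R/(2*π*(n+1:ℕ)))^((n+1)*n) * (R/(24*(n+1)*n^2))^n)) = K * c0 * R ^ (n ^ 2 + 3 * n) := by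
    rw [hc0, Nat.add_sub_cancel]
    rw [div_pow, div_pow, div_pow, div_pow, one_pow, one_pow]
    have : n ^ 2 + 3 * n = n + (n + 1) * n + n := by ring
    rw [this, pow_add, pow_add]
    field_simp
  rw [← h2]
  refine mul_le_mul_of_nonneg_left ?_ (by positivity)
  exact h1

theorem upper_limit {n : ℕ} (hn : 1 ≤ n) :
    Tendsto (fun k : ℕ => ‖Z (n + 1) k twoTori‖ /
      ((k : ℝ) + (n + 1 : ℕ)) ^ ((((2 * ((n : ℤ) ^ 2 + 3 * n) : ℤ) : ℝ) + 1) / 2)) atTop (𝓝 0) := by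
  have hn' : (0 : ℝ) < n := by exact_mod_cast hn
  have hn1 : (1 : ℝ) ≤ n := by exact_mod_cast hn
  set C : ℝ := (n + 1 : ℕ) * (((n + 1).factorial : ℝ) ^ 2 * (((n + 1 : ℕ) : ℝ) / 4) ^ (n * (n + 2)) *
    (((n : ℝ) + 2) * (1 + 8 * n) ^ n) ^ 2) with hC
  have hCpos : 0 ≤ C := by rw [hC]; positivity
  have hlim : Tendsto (fun k : ℕ => C * ((k : ℝ) + (n + 1 : ℕ)) ^ (-(1 / 4 : ℝ))) atTop (𝓝 0) := by
    have h1 : Tendsto (fun k : ℕ => (k : ℝ) + ((n + 1 : ℕ) : ℝ)) atTop atTop :=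
      tendsto_R (n + 1)
    have h2 := (tendsto_rpow_neg_atTop (show (0 : ℝ) < 1 / 4 by norm_num)).comp h1
    have h3 := h2.const_mul C
    rw [mul_zero] at h3
    exact h3
  refine squeeze_zero (fun k => ?_) (fun k => ?_) hlim
  · have : (0 : ℝ) ≤ (k : ℝ) + (n + 1 : ℕ) := by positivity
    exact div_nonneg (norm_nonneg _) (Real.rpow_nonneg this _)
  rw [norm_Z_twoTori (Nat.succ_pos n)]
  have hR : ((k : ℝ) + (n + 1 : ℕ)) = ((k + (n + 1) : ℕ) : ℝ) := by push_cast; ring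
  rw [hR]
  have hrpos : 0 < k + (n + 1) := by omega
  have h1 := W_le (n := n) hrpos
  set R : ℝ := ((k + (n + 1) : ℕ) : ℝ) with hRdef
  have hRpos : 0 < R := by rw [hRdef]; exact_mod_cast hrpos
  have hR1 : 1 ≤ R := by rw [hRdef]; exact_mod_cast hrpos
  have hlog0 : 0 ≤ Real.log R := Real.log_nonneg hR1
  set e : ℝ := 1 / (8 * n) with he
  have hepos : 0 < e := by rw [he]; positivity
  have hlog : 1 + Real.log R ≤ (1 + 8 * n) * R ^ e := by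
    have h2 := Real.log_le_rpow_div hRpos.le hepos
    have h3 : R ^ e / e = 8 * n * R ^ e := by rw [he]; field_simp
    have h4 : 1 ≤ R ^ e := Real.one_le_rpow hR1 hepos.le
    rw [h3] at h2
    nlinarith
  have hlogn : (1 + Real.log R) ^ n ≤ (1 + 8 * n) ^ n * R ^ (1 / 8 : ℝ) := by
    have h2 := pow_le_pow_left₀ (by linarith) hlog n
    rw [mul_pow, ← Real.rpow_mul_natCast hRpos.le] at h2
    have h3 : e * n = 1 / 8 := by rw [he]; field_simp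
    rwa [h3] at h2
  rw [div_le_iff₀ (by positivity)]
  have h5 : R ^ ((((2 * ((n : ℤ) ^ 2 + 3 * n) : ℤ) : ℝ) + 1) / 2) =
      R ^ (n ^ 2 + 3 * n) * R ^ (1 / 2 : ℝ) := by
    rw [← Real.rpow_natCast, ← Real.rpow_add hRpos]
    congr 1
    push_cast
    ring
  have h6 : R ^ (-(1 / 4 : ℝ)) * R ^ (1 / 2 : ℝ) = (R ^ (1 / 8 : ℝ)) ^ 2 := by
    rw [← Real.rpow_add hRpos, ← Real.rpow_mul_natCast hRpos.le]
    norm_num
  have h7 : C * R ^ (-(1 / 4 : ℝ)) * R ^ ((((2 * ((n : ℤ) ^ 2 + 3 * n) : ℤ) : ℝ) + 1) / 2) =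
      ((n + 1 : ℕ) : ℝ) * R ^ (n + 1 - 1) * (((n + 1).factorial : ℝ) ^ 2 *
        (((n + 1 : ℕ) : ℝ) * R / 4) ^ (n * (n + 2)) *
        (((n : ℝ) + 2) * ((1 + 8 * n) ^ n * R ^ (1 / 8 : ℝ))) ^ 2) := by
    rw [h5]
    have : C * R ^ (-(1 / 4 : ℝ)) * (R ^ (n ^ 2 + 3 * n) * R ^ (1 / 2 : ℝ)) =
        C * R ^ (n ^ 2 + 3 * n) * (R ^ (-(1 / 4 : ℝ)) * R ^ (1 / 2 : ℝ)) := by ring
    rw [this, h6, hC, Nat.add_sub_cancel]
    have h8 : n ^ 2 + 3 * n = n + n * (n + 2) := by ring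
    rw [h8, pow_add]
    have h9 : (((n + 1 : ℕ) : ℝ) * R / 4) ^ (n * (n + 2)) =
        (((n + 1 : ℕ) : ℝ) / 4) ^ (n * (n + 2)) * R ^ (n * (n + 2)) := by
      rw [← mul_pow]; congr 1; ring
    rw [h9]
    ring
  rw [h7]
  refine mul_le_mul_of_nonneg_left (h1.trans ?_) (by positivity)
  refine mul_le_mul_of_nonneg_left ?_ (by positivity)
  refine pow_le_pow_left₀ (by positivity) ?_ 2
  exact mul_le_mul_of_nonneg_left hlogn (by positivity)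

theorem no_expansion_twoTori (N : ℕ) (hN : 2 ≤ N) (u : ℕ → ℂ) (hu : ∀ k, ‖u k‖ = 1)
    (m : ℕ) (c : Fin (m + 1) → ℝ) :
    ¬ HasExpansion N (fun k => u k * Z N k twoTori) m c := by
  obtain ⟨n, rfl⟩ : ∃ n, N = n + 1 := ⟨N - 1, by omega⟩
  have hn : 1 ≤ n := by omega
  refine no_expansion (by omega) (2 * ((n : ℤ) ^ 2 + 3 * n)) ?_ ?_
  · simpa only [norm_mul, hu, one_mul] using lower_limit hn
  · simpa only [norm_mul, hu, one_mul] using upper_limit hn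

end Pool.Agent.Helper15.AllN
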